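import Pool.Agent.Lib.MP_ba4752_ag.FF

/-! Passing to a quotient of the Galois group. -/

set_option linter.unusedSectionVars false

open IntermediateField MulAction
open scoped Pointwise

namespace Pool.Agent.Lib.MP_ba4752_ag

open Pool.Agent.Lib.MP_e06174_ag Place

variable {k K L : Type*} [Field k] [Field K] [Field L] [Algebra k K] [Algebra K L] [Algebra k L]
  [IsScalarTower k K L]

lemma exists_under [Algebra.IsAlgebraic K L] (w : Place k L) :
    ∃ (v : Place k K) (e : ℕ), w.Over (IsScalarTower.toAlgHom k K L) v e := by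
  rcases w.restrict (IsScalarTower.toAlgHom k K L) with h | h
  · obtain ⟨y, hy0, hy⟩ := w.exists_ord_eq (-1)
    have := (ge_zero_of_isIntegral w (R := K) (fun r => ge_of_le (h r).ge)
      (Algebra.IsIntegral.isIntegral y)).le hy0
    omega
  · exact h

lemma over_comap {w : Place k L} {v : Place k K} {e : ℕ}
    (h : w.Over (IsScalarTower.toAlgHom k K L) v e) : w.O.comap (algebraMap K L) = v.O := by
  ext z
  rw [ValuationSubring.mem_comap, mem_O, mem_O]
  exact h.ge_zero_iff z

lemma exists_smul_of_agree (N : Subgroup (L ≃ₐ[K] L)) [Finite N] {w w' : Place k L}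
    (h : ∀ z : L, (∀ σ ∈ N, σ z = z) → (w.Ge 0 z ↔ w'.Ge 0 z)) : ∃ σ ∈ N, w' = σ • w := by
  obtain ⟨v, e, hv⟩ := exists_under (K := Fix k L N) w
  obtain ⟨v', e', hv'⟩ := exists_under (K := Fix k L N) w'
  obtain rfl : v = v' := ext_of_ge fun z hz => (hv'.ge_zero_iff z).1
    ((h z fun σ hσ => z.2 ⟨σ, hσ⟩).1 ((hv.ge_zero_iff z).2 hz))
  obtain ⟨g, hg⟩ := exists_smul_eq hv hv'
  exact ⟨g.1, g.2, hg⟩

variable [FiniteDimensional K L] [IsGalois K L]

lemma decomp_eq (N : Subgroup (L ≃ₐ[K] L)) [N.Normal] (w : Place k L) :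
    (w.O.comap (algebraMap (fixedField N) L)).decompositionSubgroup K =
      (stabilizer (L ≃ₐ[K] L) w).map (AlgEquiv.restrictNormalHom (fixedField N)) := by
  have key : ∀ (σ : L ≃ₐ[K] L) (z : fixedField N),
      z ∈ AlgEquiv.restrictNormalHom (fixedField N) σ • w.O.comap (algebraMap (fixedField N) L) ↔
        (σ • w).Ge 0 z := by
    intro σ z
    rw [ValuationSubring.mem_pointwise_smul_iff_inv_smul_mem, ← map_inv, smul_ge,
      ValuationSubring.mem_comap, mem_O]
    have := AlgEquiv.restrictNormal_commutes σ⁻¹ (fixedField N) z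
    exact iff_of_eq (congrArg _ this)
  ext τ
  obtain ⟨σ, rfl⟩ := AlgEquiv.restrictNormalHom_surjective L τ
  constructor
  · intro h
    rw [mem_stabilizer_iff] at h
    obtain ⟨n, hn, hn'⟩ := exists_smul_of_agree N (w := w) (w' := σ • w) fun z hz => by
      rw [← key σ ⟨z, fun g => hz g g.2⟩, h, ValuationSubring.mem_comap, mem_O]
      rfl
    refine ⟨n⁻¹ * σ, by rw [SetLike.mem_coe, mem_stabilizer_iff, mul_smul, hn', inv_smul_smul], ?_⟩
    have : AlgEquiv.restrictNormalHom (fixedField N) n = 1 := by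
      rw [← MonoidHom.mem_ker, (fixedField N).restrictNormalHom_ker, fixingSubgroup_fixedField]
      exact hn
    simp [this]
  · rintro ⟨σ', hσ', h⟩
    rw [← h, mem_stabilizer_iff]
    ext z
    rw [key, mem_stabilizer_iff.1 hσ', ValuationSubring.mem_comap, mem_O]
    rfl

lemma quot_result {G : Type*} [Group G] (φ : (L ≃ₐ[K] L) →* G) (hφ : Function.Surjective φ)
    {x : K} (hx : SepCoord k x) (ξ : Place k K) (H : Subgroup G)
    (h1 : ∀ (w : Place k L) v e, w.Over (IsScalarTower.toAlgHom k K L) v e → v ≠ ξ →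
      stabilizer (L ≃ₐ[K] L) w = ⊥)
    (h2 : ∃ (w : Place k L) (e : ℕ), w.Over (IsScalarTower.toAlgHom k K L) ξ e ∧
      (stabilizer (L ≃ₐ[K] L) w).map φ = H) :
    ∃ e : (fixedField φ.ker ≃ₐ[K] fixedField φ.ker) ≃* G,
      (∀ η : ValuationSubring (fixedField φ.ker), η ≠ ⊤ →
        (∀ c : k, algebraMap K _ (algebraMap k K c) ∈ η) → η.comap (algebraMap K _) ≠ ξ.O →
          η.decompositionSubgroup K = ⊥) ∧
      ∃ η : ValuationSubring (fixedField φ.ker), η.comap (algebraMap K _) = ξ.O ∧
        (η.decompositionSubgroup K).map e.toMonoidHom = H := by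
  have hcc : ∀ w : Place k L, (w.O.comap (algebraMap (fixedField φ.ker) L)).comap
      (algebraMap K (fixedField φ.ker)) = w.O.comap (algebraMap K L) := fun w => rfl
  refine ⟨(IsGalois.normalAutEquivQuotient φ.ker).symm.trans
    (QuotientGroup.quotientKerEquivOfSurjective φ hφ), fun η hη hk hne => ?_, ?_⟩
  · have : IsScalarTower k (fixedField φ.ker) L := .of_algebraMap_eq fun _ => rfl
    obtain ⟨v', rfl⟩ := (hx.ext (fixedField φ.ker)).exists_place η hη fun c => by
      rw [IsScalarTower.algebraMap_apply k K]; exact hk c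
    obtain ⟨w, e', hw⟩ := exists_over L v'
    obtain ⟨v, e, hv⟩ := exists_under (K := K) w
    rw [← over_comap hw] at hne ⊢
    rw [decomp_eq, h1 w v e hv, Subgroup.map_bot]
    rintro rfl
    exact hne ((hcc w).trans (over_comap hv))
  · obtain ⟨w, e, hw, rfl⟩ := h2
    refine ⟨_, (hcc w).trans (over_comap hw), ?_⟩
    rw [decomp_eq, Subgroup.map_map]
    congr 1
    ext σ
    simp only [MulEquiv.toMonoidHom_eq_coe, MonoidHom.coe_comp, MonoidHom.coe_coe,
      Function.comp_apply, MulEquiv.trans_apply]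
    rw [← IsGalois.normalAutEquivQuotient_apply, MulEquiv.symm_apply_apply]
    rfl

end Pool.Agent.Lib.MP_ba4752_ag
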