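import Pool.Agent.Lib.MP_ba4752_ag.Frob

/-! Subspace polynomials over a finite field. -/

open Polynomial Finset

namespace Pool.Agent.Lib.MP_ba4752_ag

variable {F : Type*} [Field F] [Fintype F] {E : Type*} [Field E] [Algebra F E]

open Classical in
/-- The monic polynomial whose roots are the elements of an additive subgroup. -/
noncomputable def sp (Q : AddSubgroup F) : F[X] := ∏ b : Q, (X - C (b : F))

lemma sp_monic (Q : AddSubgroup F) : (sp Q).Monic :=
  monic_prod_of_monic _ _ fun _ _ => monic_X_sub_C _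

lemma sp_natDegree (Q : AddSubgroup F) : (sp Q).natDegree = Nat.card Q := by
  classical
  rw [sp, natDegree_prod_of_monic _ _ fun _ _ => monic_X_sub_C _]
  simp

open Classical in
lemma aeval_sp (Q : AddSubgroup F) (x : E) :
    aeval x (sp Q) = ∏ b : Q, (x - algebraMap F E b) := by
  simp [sp, map_prod]

lemma eval_sp_eq_zero {Q : AddSubgroup F} {x : F} : (sp Q).eval x = 0 ↔ x ∈ Q := by
  have := aeval_sp Q x
  rw [coe_aeval_eq_eval] at this
  rw [this, prod_eq_zero_iff]
  simp only [mem_univ, Algebra.algebraMap_self, RingHom.id_apply, true_and, sub_eq_zero]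
  exact ⟨fun ⟨b, hb⟩ => hb ▸ b.2, fun h => ⟨⟨x, h⟩, rfl⟩⟩

lemma taylor_sp (Q : AddSubgroup F) (x : E) :
    taylor x ((sp Q).map (algebraMap F E)) =
      (sp Q).map (algebraMap F E) + C (aeval x (sp Q)) := by
  classical
  set f := (sp Q).map (algebraMap F E) with hf
  have hm : f.Monic := (sp_monic Q).map _
  have hd : f.degree = (Fintype.card Q : ℕ) := by
    rw [degree_eq_natDegree hm.ne_zero, hf, (sp_monic Q).natDegree_map, sp_natDegree,
      Nat.card_eq_fintype_card]
  rw [← sub_eq_zero, ← sub_sub]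
  refine eq_zero_of_degree_lt_of_eval_index_eq_zero (univ : Finset Q)
    (v := fun b : Q => algebraMap F E b.1) ?_ ?_ ?_
  · intro a _ b _ h
    exact Subtype.ext ((algebraMap F E).injective h)
  · rw [card_univ]
    refine (degree_sub_le _ _).trans_lt (max_lt ?_ ?_)
    · rw [← hd, ← degree_taylor f x]
      exact degree_sub_lt_left (degree_taylor f x) (by simpa using hm.ne_zero)
        (leadingCoeff_taylor x f)
    · exact degree_C_le.trans_lt (by exact_mod_cast Fintype.card_pos)
  · intro b _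
    have h1 : aeval (algebraMap F E b) (sp Q) = 0 := by
      rw [aeval_algebraMap_apply, coe_aeval_eq_eval, eval_sp_eq_zero.2 b.2, map_zero]
    simp only [eval_sub, taylor_eval, eval_C, hf, eval_map_algebraMap, h1, sub_zero]
    rw [aeval_sp, aeval_sp, sub_eq_zero]
    refine (Fintype.prod_equiv (Equiv.addRight b) _ _ fun c => ?_).symm
    simp only [Equiv.coe_addRight, AddSubgroup.coe_add, map_add]
    ring

lemma aeval_sp_add (Q : AddSubgroup F) (x y : E) :
    aeval (x + y) (sp Q) = aeval x (sp Q) + aeval y (sp Q) := by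
  have := congrArg (eval x) (taylor_sp Q y)
  simpa [taylor_eval, eval_map_algebraMap] using this

lemma aeval_sp_sub (Q : AddSubgroup F) (x y : E) :
    aeval (x - y) (sp Q) = aeval x (sp Q) - aeval y (sp Q) := by
  rw [eq_sub_iff_add_eq, ← aeval_sp_add, sub_add_cancel]

lemma sp_coeff_zero (Q : AddSubgroup F) : (sp Q).coeff 0 = 0 := by
  rw [coeff_zero_eq_eval_zero, eval_sp_eq_zero]; exact zero_mem _

lemma sp_coeff (p : ℕ) [Fact p.Prime] [CharP F p] (Q : AddSubgroup F) {i : ℕ}
    (hi : (sp Q).coeff i ≠ 0) : ∃ a, i = p ^ a := by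
  have hi0 : 0 < i := Nat.pos_of_ne_zero fun h => hi (h ▸ sp_coeff_zero Q)
  refine ⟨_, Choose.eq_pow_multiplicity_of_choose_modEq_zero_nat hi0 fun j hj => ?_⟩
  rw [mem_Icc] at hj
  let k := AlgebraicClosure F
  set f := (sp Q).map (algebraMap F k) with hf
  have h1 : hasseDeriv j f = C (f.coeff j) := by
    refine Polynomial.funext fun x => ?_
    rw [← taylor_coeff, hf, taylor_sp, coeff_add, coeff_C, if_neg (by omega), add_zero, eval_C]
  have h2 := congrArg (coeff · (i - j)) h1
  simp only [hasseDeriv_coeff, coeff_C, if_neg (show i - j ≠ 0 by omega),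
    show i - j + j = i by omega, hf, coeff_map, mul_eq_zero, map_eq_zero, hi, or_false] at h2
  exact (CharP.cast_eq_zero_iff k p _).1 h2 |> Nat.modEq_zero_iff_dvd.2

lemma sp_scale (Q : AddSubgroup F) {η : F} (h0 : η ≠ 0) (hη : ∀ b ∈ Q, η * b ∈ Q) :
    (sp Q).comp (C η * X) = C (η ^ Nat.card Q) * sp Q := by
  classical
  let j : Q → Q := fun b => ⟨η * b, hη b b.2⟩
  have hj : Function.Bijective j := Finite.injective_iff_bijective.1 fun a b h =>
    Subtype.ext (mul_left_cancel₀ h0 (congrArg Subtype.val h))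
  rw [sp, Polynomial.prod_comp, ← hj.prod_comp, Nat.card_eq_fintype_card, ← card_univ, map_pow, ← prod_const,
    ← prod_mul_distrib]
  refine prod_congr rfl fun b _ => ?_
  simp [j, mul_sub]

lemma sp_scale_coeff (Q : AddSubgroup F) {η : F} (h0 : η ≠ 0) (hη : ∀ b ∈ Q, η * b ∈ Q) {i : ℕ}
    (hi : (sp Q).coeff i ≠ 0) : η ^ i = η ^ Nat.card Q := by
  have := congrArg (coeff · i) (sp_scale Q h0 hη)
  simp only [comp_C_mul_X_coeff, coeff_C_mul] at this
  rw [mul_comm] at this
  exact mul_right_cancel₀ hi this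

/-- The image of the subspace polynomial. -/
noncomputable def img (P : AddSubgroup F) : AddSubgroup F :=
  (AddMonoidHom.mk' (fun x : F => aeval x (sp P)) (aeval_sp_add P)).range

lemma mem_img {P : AddSubgroup F} {y : F} : y ∈ img P ↔ ∃ x, (sp P).eval x = y := by
  simp [img, coe_aeval_eq_eval]

lemma card_img (P : AddSubgroup F) : Nat.card P * Nat.card (img P) = Fintype.card F := by
  rw [img, ← AddSubgroup.index_ker, ← Nat.card_eq_fintype_card,
    ← AddSubgroup.card_mul_index (AddMonoidHom.mk' (fun x : F => aeval x (sp P))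
      (aeval_sp_add P)).ker]
  congr 4
  ext x
  simp [coe_aeval_eq_eval, eval_sp_eq_zero]

lemma comp_img (P : AddSubgroup F) : (sp (img P)).comp (sp P) = X ^ Fintype.card F - X := by
  have hP : 0 < Nat.card P := Nat.card_pos
  have h1 : ((sp (img P)).comp (sp P)).Monic :=
    (sp_monic _).comp (sp_monic _) (by rw [sp_natDegree]; omega)
  have h2 : (X ^ Fintype.card F - X : F[X]).Monic := by
    rw [← prod_univ_X_sub_C]
    exact monic_prod_of_monic _ _ fun _ _ => monic_X_sub_C _
  have h3 : ((sp (img P)).comp (sp P)).degree = (Fintype.card F : ℕ) := by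
    rw [degree_eq_natDegree h1.ne_zero, natDegree_comp, sp_natDegree, sp_natDegree, mul_comm,
      card_img]
  refine eq_of_degree_sub_lt_of_eval_finset_eq univ ?_ fun x _ => ?_
  · rw [card_univ, ← h3]
    refine degree_sub_lt_left ?_ h1.ne_zero (h1.trans h2.symm)
    rw [h3, degree_eq_natDegree h2.ne_zero,
      FiniteField.X_pow_card_sub_X_natDegree_eq F Fintype.one_lt_card]
  · rw [eval_comp, eval_sp_eq_zero.2 (mem_img.2 ⟨x, rfl⟩)]
    simp [FiniteField.pow_card]

lemma aeval_img (P : AddSubgroup F) (x : E) :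
    aeval (aeval x (sp P)) (sp (img P)) = x ^ Fintype.card F - x := by
  rw [← aeval_comp, comp_img]; simp

lemma img_coeff (p : ℕ) [Fact p.Prime] [CharP F p] (P : AddSubgroup F) (T : Subgroup Fˣ)
    (hT : ∀ ζ ∈ T, ∀ b ∈ P, (ζ : F) ^ 2 * b ∈ P) {i : ℕ} (hi : (sp (img P)).coeff i ≠ 0)
    (hiN : i < Nat.card (img P)) :
    1 ≤ i ∧ 2 * i ≤ Nat.card (img P) ∧
      Nat.card T ∣ (Fintype.card F + 1) * (Nat.card (img P) - i) := by
  have hp : p.Prime := Fact.out
  obtain ⟨a, rfl⟩ := sp_coeff p _ hi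
  obtain ⟨r, -, hr⟩ := FiniteField.card F p
  have hc := card_img P
  obtain ⟨e, -, he⟩ := (Nat.dvd_prime_pow hp).1 (hr ▸ Dvd.intro_left _ hc)
  obtain ⟨f, -, hf⟩ := (Nat.dvd_prime_pow hp).1 (hr ▸ Dvd.intro _ hc)
  refine ⟨Nat.one_le_pow _ _ hp.pos, ?_, ?_⟩
  · rw [he] at hiN ⊢
    have h1 : a < e := (Nat.pow_lt_pow_iff_right hp.one_lt).1 hiN
    calc 2 * p ^ a ≤ p * p ^ a := Nat.mul_le_mul_right _ hp.two_le
      _ = p ^ (a + 1) := by ring
      _ ≤ p ^ e := Nat.pow_le_pow_right hp.pos h1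
  · refine card_dvd_of_pow ((Units.coeHom F).comp T.subtype)
      (Units.val_injective.comp Subtype.val_injective) fun ζ => ?_
    change (ζ.1 : F) ^ _ = 1
    have h0 : (ζ.1 : F) ≠ 0 := ζ.1.ne_zero
    have h1 := sp_scale_coeff (img P) (η := (ζ.1 ^ 2 : F) ^ Nat.card P) (by simp) (by
      intro y hy
      obtain ⟨x, rfl⟩ := mem_img.1 hy
      refine mem_img.2 ⟨ζ.1 ^ 2 * x, ?_⟩
      have := congrArg (eval x) (sp_scale P (η := ζ.1 ^ 2) (by simp) (hT ζ.1 ζ.2))
      simpa [eval_comp] using this) hi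
    obtain ⟨c, hc'⟩ := Nat.exists_eq_add_of_le hiN.le
    rw [hc', pow_add, left_eq_mul₀ (by simp), ← pow_mul, mul_comm, pow_mul, hf] at h1
    have h2 : ((ζ.1 : F) ^ 2) ^ c = 1 := by
      have h3 := sub_pow_char_pow (((ζ.1 : F) ^ 2) ^ c) 1 (p := p) f
      rw [h1, one_pow, sub_self] at h3
      exact sub_eq_zero.1 (pow_eq_zero_iff (pow_ne_zero _ hp.ne_zero) |>.1 h3)
    rw [hc', Nat.add_sub_cancel_left, pow_mul, pow_succ, FiniteField.pow_card, ← sq, h2]

end Pool.Agent.Lib.MP_ba4752_ag
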