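import Mathlib

/-! The Frobenius of a finite field acting on extension fields; additive polynomials. -/

open Polynomial Finset

namespace Pool.Agent.Lib.MP_ba4752_ag

variable {F : Type*} [Field F] [Fintype F] {E : Type*} [Field E] [Algebra F E]

lemma prod_univ_X_sub_C : ∏ c : F, (X - C c) = X ^ Fintype.card F - X := by
  have h1 : (X ^ Fintype.card F - X : F[X]).Monic := by
    refine (monic_X_pow _).sub_of_left ?_
    rw [degree_X, degree_X_pow]
    exact_mod_cast Fintype.one_lt_card
  have h2 := prod_multiset_X_sub_C_of_monic_of_roots_card_eq h1 (by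
    rw [FiniteField.roots_X_pow_card_sub_X,
      FiniteField.X_pow_card_sub_X_natDegree_eq F Fintype.one_lt_card]; rfl)
  rw [FiniteField.roots_X_pow_card_sub_X] at h2
  exact h2

lemma pow_card_sub (z : E) : z ^ Fintype.card F - z = ∏ c : F, (z - algebraMap F E c) := by
  have := congrArg (aeval z) (prod_univ_X_sub_C (F := F))
  simpa [map_prod] using this.symm

lemma exists_of_pow_card {z : E} (h : z ^ Fintype.card F = z) : ∃ c, algebraMap F E c = z := by
  have := pow_card_sub (F := F) z
  rw [h, sub_self, eq_comm, prod_eq_zero_iff] at this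
  obtain ⟨c, -, hc⟩ := this
  exact ⟨c, (sub_eq_zero.1 hc).symm⟩

lemma map_pow_card (c : F) : algebraMap F E c ^ Fintype.card F = algebraMap F E c := by
  rw [← map_pow, FiniteField.pow_card]

variable (F) in
lemma add_pow_card (x y : E) :
    (x + y) ^ Fintype.card F = x ^ Fintype.card F + y ^ Fintype.card F :=
  map_add (FiniteField.frobeniusAlgHom F E) x y

variable (F) in
lemma sub_pow_card (x y : E) :
    (x - y) ^ Fintype.card F = x ^ Fintype.card F - y ^ Fintype.card F :=
  map_sub (FiniteField.frobeniusAlgHom F E) x y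

variable (F) in
lemma neg_pow_card (x : E) : (-x) ^ Fintype.card F = - x ^ Fintype.card F :=
  map_neg (FiniteField.frobeniusAlgHom F E) x

lemma card_dvd_of_pow {Γ R : Type*} [Group Γ] [Finite Γ] [CommRing R] [IsDomain R] (f : Γ →* R)
    (hf : Function.Injective f) {n : ℕ} (h : ∀ g, f g ^ n = 1) : Nat.card Γ ∣ n := by
  have := isCyclic_of_injective_ringHom f hf
  rw [← IsCyclic.exponent_eq_card]
  refine Monoid.exponent_dvd_of_forall_pow_eq_one fun g => hf ?_
  rw [map_pow, h, map_one]

end Pool.Agent.Lib.MP_ba4752_ag
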