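import Pool.Agent.Lib.MP_ba4752_ag.Mob
import Pool.Agent.Lib.MP_ba4752_ag.Frob

/-! Subgroups of the Borel subgroup of `SL(2, F)`. -/

open scoped MatrixGroups
open Finset

namespace Pool.Agent.Lib.MP_ba4752_ag

lemma card_ker_range {A B : Type*} [Group A] [Group B] (f : A →* B) :
    Nat.card A = Nat.card f.ker * Nat.card f.range := by
  rw [← Subgroup.index_ker, Subgroup.card_mul_index]

lemma card_of_eq_subgroupOf {G : Type*} [Group G] {A B : Subgroup G} {S : Subgroup A}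
    (h : ∀ g : A, g ∈ S ↔ g.1 ∈ B) : Nat.card S = Nat.card ↥(A ⊓ B) := by
  have : S = (A ⊓ B).subgroupOf A := by
    ext g; simp [h, Subgroup.mem_subgroupOf]
  rw [this]
  exact Nat.card_congr (Subgroup.subgroupOfEquivOfLe inf_le_left).toEquiv

open Classical in
lemma card_filter_eq {G : Type*} [Group G] {A B : Subgroup G} [Fintype A] (Q : A → Prop)
    (h : ∀ g : A, Q g ↔ g.1 ∈ B) : #{g : A | Q g} = Nat.card ↥(A ⊓ B) := by
  rw [← card_of_eq_subgroupOf (S := B.subgroupOf A) fun g => Iff.rfl, Nat.card_eq_fintype_card,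
    Fintype.card_subtype]
  congr 1
  ext g
  simp [h, Subgroup.mem_subgroupOf]

variable {F : Type*} [Field F]

lemma bor_mul {g : SL(2, F)} (hg : g 1 0 = 0) : g 0 0 * g 1 1 = 1 := by
  have := sl_det g
  rw [hg] at this
  simpa using this

lemma bor_ne {g : SL(2, F)} (hg : g 1 0 = 0) : g 0 0 ≠ 0 :=
  left_ne_zero_of_mul_eq_one (bor_mul hg)

/-- The upper left entry, a character of the Borel subgroup. -/
noncomputable def chi : bor F →* Fˣ where
  toFun g := Units.mk0 (g.1 0 0) (bor_ne g.2)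
  map_one' := by ext; simp
  map_mul' a b := by
    ext
    have := mem_bor.1 b.2
    simp [mul_ap, this]

@[simp] lemma chi_val (g : bor F) : (chi g : F) = g.1 0 0 := rfl

/-- Plus or minus a unitriangular matrix. -/
def wS (F : Type*) [Field F] : Subgroup SL(2, F) where
  carrier := {g | g 1 0 = 0 ∧ g 0 0 ^ 2 = 1}
  one_mem' := ⟨rfl, by simp⟩
  mul_mem' := by
    rintro a b ⟨h1, h2⟩ ⟨h3, h4⟩
    refine ⟨by simp [mul_ap, h1, h3], ?_⟩
    simp only [mul_ap, h3, mul_zero, add_zero, mul_pow, h2, h4, mul_one]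
  inv_mem' := by
    rintro a ⟨h1, h2⟩
    refine ⟨by simp [inv10, h1], ?_⟩
    have := bor_mul h1
    rw [inv00]
    linear_combination (-a 1 1 ^ 2) * h2 + (a 0 0 * a 1 1 + 1) * this

lemma mem_wS {g : SL(2, F)} : g ∈ wS F ↔ g 1 0 = 0 ∧ g 0 0 ^ 2 = 1 := Iff.rfl

lemma wS_diag {g : SL(2, F)} (hg : g ∈ wS F) : g 1 1 = g 0 0 := by
  have := bor_mul hg.1
  linear_combination (-g 1 1) * hg.2 + g 0 0 * this

lemma mem_wS_iff {g : SL(2, F)} : g ∈ wS F ↔ Par g ∧ g 1 0 = 0 := by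
  constructor
  · intro hg
    refine ⟨?_, hg.1⟩
    rw [Par, wS_diag hg]
    linear_combination 4 * hg.2
  · rintro ⟨h1, h2⟩
    refine ⟨h2, ?_⟩
    have h3 := bor_mul h2
    have h4 : (g 0 0 - g 1 1) ^ 2 = 0 := by rw [Par] at h1; linear_combination h1 - 4 * h3
    have h5 := sub_eq_zero.1 (pow_eq_zero_iff two_ne_zero |>.1 h4)
    rw [← h5] at h3
    linear_combination h3

/-- The translation part. -/
def tau : wS F →* Multiplicative F where
  toFun g := Multiplicative.ofAdd (g.1 0 1 * g.1 0 0)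
  map_one' := by simp
  map_mul' a b := by
    rw [← ofAdd_add]
    congr 1
    have ha := a.2.2
    have hb := b.2.2
    simp only [Subgroup.coe_mul, mul_ap, b.2.1, wS_diag b.2]
    linear_combination (b.1 0 1 * b.1 0 0) * ha + (a.1 0 1 * a.1 0 0) * hb

/-- The translations induced by a subgroup. -/
def pmP (H : Subgroup SL(2, F)) : Subgroup (Multiplicative F) :=
  (tau.comp (Subgroup.inclusion (inf_le_right : H ⊓ wS F ≤ wS F))).range

lemma mem_pmP {H : Subgroup SL(2, F)} {b : F} : Multiplicative.ofAdd b ∈ pmP H ↔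
    ∃ g ∈ H, g ∈ wS F ∧ g 0 1 * g 0 0 = b := by
  constructor
  · rintro ⟨g, hg⟩
    exact ⟨g, g.2.1, g.2.2, Multiplicative.ofAdd.injective hg⟩
  · rintro ⟨g, h1, h2, rfl⟩
    exact ⟨⟨g, h1, h2⟩, rfl⟩

lemma card_wS (H : Subgroup SL(2, F)) :
    Nat.card ↥(H ⊓ wS F) = Nat.card ↥(H ⊓ cenS F) * Nat.card (pmP H) := by
  rw [card_ker_range (tau.comp (Subgroup.inclusion (inf_le_right : H ⊓ wS F ≤ wS F))), pmP,
    card_of_eq_subgroupOf (B := cenS F)]
  · congr 3
    ext g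
    simp only [Subgroup.mem_inf, and_assoc, and_congr_right_iff, and_iff_right_iff_imp]
    rintro - ⟨h1, h2, h3⟩
    refine ⟨h2, ?_⟩
    have := bor_mul h2
    rw [← h3] at this
    linear_combination this
  · intro g
    rw [MonoidHom.mem_ker]
    change Multiplicative.ofAdd (g.1 0 1 * g.1 0 0) = Multiplicative.ofAdd 0 ↔ Cen g.1
    rw [Multiplicative.ofAdd.apply_eq_iff_eq]
    have h1 := g.2.2
    simp [Cen, bor_ne h1.1, h1.1, wS_diag h1]

lemma card_bor [Finite F] (H : Subgroup SL(2, F)) (h : 1 < Nat.card (pmP H)) :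
    ∃ m, m + 1 ≤ Nat.card (pmP H) ∧ Nat.card ↥(H ⊓ bor F) = Nat.card ↥(H ⊓ wS F) * m := by
  let f : ↥(H ⊓ bor F) →* Fˣ :=
    (powMonoidHom 2).comp (chi.comp (Subgroup.inclusion (inf_le_right : H ⊓ bor F ≤ bor F)))
  have hf : ∀ g, (f g : F) = g.1 0 0 ^ 2 := fun g => by simp [f]
  refine ⟨Nat.card f.range, ?_, ?_⟩
  · have : Nontrivial (pmP H) := Finite.one_lt_card_iff_nontrivial.1 h
    obtain ⟨⟨b, hb⟩, hb0⟩ := exists_ne (1 : pmP H)
    have hb1 : b.toAdd ≠ 0 := fun h => hb0 (Subtype.ext h)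
    obtain ⟨w, hw, hw', hwb⟩ := (mem_pmP (b := b.toAdd)).1 hb
    have key : ∀ a : f.range, Multiplicative.ofAdd ((a.1 : F) * b.toAdd) ∈ pmP H := by
      rintro ⟨_, g, rfl⟩
      have hgb : g.1 ∈ bor F := g.2.2
      have hg := mem_bor.1 hgb
      have hg' := bor_mul hg
      refine mem_pmP.2 ⟨g * w * g.1⁻¹, mul_mem (mul_mem g.2.1 hw) (inv_mem g.2.1), ?_, ?_⟩
      · rw [mem_wS_iff, par_conj_iff]
        exact ⟨(mem_wS_iff.1 hw').1, mul_mem (mul_mem hgb (mem_bor.2 hw'.1)) (inv_mem hgb)⟩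
      · simp only [hf, mul_ap, inv00, inv01, inv10, inv11, hg, hw'.1, wS_diag hw', ← hwb]
        linear_combination (g.1 0 0 ^ 2 * w 0 1 * w 0 0) * hg'
    let j : Option f.range → pmP H := fun a => a.elim 1 fun a => ⟨_, key a⟩
    have hj : Function.Injective j := by
      have hne : ∀ a : f.range, (⟨_, key a⟩ : pmP H) ≠ 1 := by
        intro a ha
        have : (a.1 : F) * b.toAdd = 0 := congrArg (fun x : pmP H => x.1.toAdd) ha
        simp [hb1] at this
      rintro (_ | a) (_ | a') haa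
      · rfl
      · exact (hne a' haa.symm).elim
      · exact (hne a haa).elim
      · have : (a.1 : F) * b.toAdd = (a'.1 : F) * b.toAdd :=
          congrArg (fun x : pmP H => x.1.toAdd) haa
        rw [mul_left_inj' hb1] at this
        congr 1
        exact Subtype.ext (Units.ext this)
    have := Nat.card_le_card_of_injective j hj
    rwa [Finite.card_option] at this
  · rw [card_ker_range f, card_of_eq_subgroupOf (B := wS F)]
    · congr 3
      ext g
      simp only [Subgroup.mem_inf, and_assoc, and_congr_right_iff, and_iff_right_iff_imp]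
      exact fun _ h => h.1
    · intro g
      rw [MonoidHom.mem_ker, ← Units.val_eq_one, hf, mem_wS]
      simp [mem_bor.1 g.2.2]

lemma uu_mem_of_pmP {H : Subgroup SL(2, F)} (h : pmP H = ⊤) (b : F) : uu b ∈ H := by
  by_cases h2 : (2 : F) = 0
  · obtain ⟨g, hg, hw, rfl⟩ := (mem_pmP (H := H) (b := b)).1 (by simp [h])
    have h1 : g 0 0 = 1 := by
      have : (g 0 0 - 1) ^ 2 = 0 := by linear_combination hw.2 + (1 - g 0 0) * h2
      exact sub_eq_zero.1 (pow_eq_zero_iff two_ne_zero |>.1 this)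
    convert hg
    exact sl_ext h1.symm (by simp [h1]) hw.1.symm (by simp [wS_diag hw, h1])
  · obtain ⟨g, hg, hw, hb⟩ := (mem_pmP (H := H) (b := b / 2)).1 (by simp [h])
    convert mul_mem hg hg
    refine sl_ext ?_ ?_ ?_ ?_ <;> simp only [mul_ap, hw.1, wS_diag hw, uu00, uu01, uu10, uu11]
    · linear_combination -hw.2
    · field_simp at hb
      linear_combination -hb
    · ring
    · linear_combination -hw.2

/-- The unipotent part of a subgroup. -/
def upP (H : Subgroup SL(2, F)) : AddSubgroup F where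
  carrier := {b | uu b ∈ H}
  zero_mem' := by simp [uu_zero]
  add_mem' := fun ha hb => by simpa [uu_add] using mul_mem ha hb
  neg_mem' := fun ha => by simpa [uu_neg] using ha

lemma mem_upP {H : Subgroup SL(2, F)} {b : F} : b ∈ upP H ↔ uu b ∈ H := Iff.rfl

lemma upP_le_pmP (H : Subgroup SL(2, F)) : AddSubgroup.toSubgroup (upP H) ≤ pmP H := by
  intro b hb
  exact (mem_pmP (b := b.toAdd)).2 ⟨uu b.toAdd, hb, ⟨rfl, by simp⟩, by simp⟩

/-- The torus part of a subgroup of the Borel subgroup. -/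
noncomputable def toR (H : Subgroup SL(2, F)) : Subgroup Fˣ := (H.subgroupOf (bor F)).map chi

lemma mem_toR {H : Subgroup SL(2, F)} {ζ : Fˣ} :
    ζ ∈ toR H ↔ ∃ g ∈ H, g 1 0 = 0 ∧ g 0 0 = ζ := by
  constructor
  · rintro ⟨g, hg, rfl⟩
    exact ⟨g, hg, g.2, rfl⟩
  · rintro ⟨g, h1, h2, h3⟩
    exact ⟨⟨g, h2⟩, h1, Units.ext h3⟩

lemma eq_uu {g : SL(2, F)} (h1 : g 1 0 = 0) (h2 : g 0 0 = 1) : g = uu (g 0 1) := by
  have := bor_mul h1
  rw [h2, one_mul] at this
  exact sl_ext h2 rfl h1 this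

lemma card_eq_upP_mul {H : Subgroup SL(2, F)} (hH : H ≤ bor F) :
    Nat.card H = Nat.card (upP H) * Nat.card (toR H) := by
  let f : H →* Fˣ := chi.comp (Subgroup.inclusion hH)
  rw [card_ker_range f]
  congr 1
  · refine (Nat.card_eq_of_bijective (fun b : upP H => (⟨⟨uu b.1, b.2⟩, ?_⟩ : f.ker)) ⟨?_, ?_⟩).symm
    · exact Units.ext rfl
    · intro a b hab
      exact Subtype.ext (congrArg (fun g : f.ker => g.1.1 0 1) hab)
    · rintro ⟨⟨g, hg⟩, hg'⟩
      have h1 : g 0 0 = 1 := congrArg Units.val hg'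
      have h2 := eq_uu (hH hg) h1
      exact ⟨⟨g 0 1, by rw [mem_upP, ← h2]; exact hg⟩, Subtype.ext (Subtype.ext h2.symm)⟩
  · congr 2
    ext ζ
    rw [mem_toR]
    constructor
    · rintro ⟨g, rfl⟩
      exact ⟨g, g.2, hH g.2, rfl⟩
    · rintro ⟨g, h1, h2, h3⟩
      exact ⟨⟨g, h1⟩, Units.ext h3⟩

lemma smul_mem_upP {H : Subgroup SL(2, F)} {ζ : Fˣ} (hζ : ζ ∈ toR H) {b : F} (hb : b ∈ upP H) :
    (ζ : F) ^ 2 * b ∈ upP H := by
  obtain ⟨g, h1, h2, h3⟩ := mem_toR.1 hζ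
  have h4 := bor_mul h2
  rw [mem_upP]
  convert mul_mem (mul_mem h1 hb) (inv_mem h1)
  refine sl_ext ?_ ?_ ?_ ?_ <;>
    simp only [mul_ap, inv00, inv01, inv10, inv11, uu00, uu01, uu10, uu11, h2, ← h3]
  · linear_combination -h4
  · ring
  · ring
  · linear_combination -h4

lemma le_of_gen {D I : Subgroup SL(2, F)} (hD : D ≤ bor F) (hu : upP D ≤ upP I) {c : SL(2, F)}
    (hcD : c ∈ D) (hcI : c ∈ I)
    (hgen : ∀ ζ ∈ toR D, ζ ∈ Subgroup.zpowers (chi ⟨c, hD hcD⟩)) : D ≤ I := by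
  intro g hg
  obtain ⟨n, hn⟩ := hgen (chi ⟨g, hD hg⟩) (mem_toR.2 ⟨g, hg, hD hg, rfl⟩)
  have h1 : g * (c ^ n)⁻¹ ∈ D := mul_mem hg (inv_mem (zpow_mem hcD n))
  have h2 : chi (⟨g, hD hg⟩ * (⟨c, hD hcD⟩ ^ n)⁻¹) = 1 := by
    rw [map_mul, map_inv, map_zpow, ← hn]; simp
  have h3 : (g * (c ^ n)⁻¹ : SL(2, F)) 0 0 = 1 := congrArg Units.val h2
  have h4 := eq_uu (hD h1) h3
  have h5 : g * (c ^ n)⁻¹ ∈ I := by
    rw [h4]
    exact hu (by rw [mem_upP, ← h4]; exact h1)
  simpa using mul_mem h5 (zpow_mem hcI n)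

lemma neg_one_mem [Finite F] {D : Subgroup SL(2, F)} {c : SL(2, F)} (hc : c ∈ D) (h1 : c 1 0 = 0)
    (h2 : c 0 0 = -1) (h3 : (2 : F) ≠ 0) : -1 ∈ D := by
  obtain ⟨p, hp⟩ := CharP.exists F
  have hpp := (CharP.char_is_prime F p)
  have hodd : Odd p := hpp.odd_of_ne_two (by
    rintro rfl
    exact h3 (by exact_mod_cast CharP.cast_eq_zero F 2))
  have h4 : c 1 1 = -1 := by
    have := bor_mul h1
    rw [h2] at this
    linear_combination -this
  have h5 : c = - uu (- c 0 1) := sl_ext (by simp [h2]) (by simp) (by simp [h1]) (by simp [h4])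
  have h6 : ∀ (n : ℕ) (b : F), uu b ^ n = uu (n * b) := by
    intro n b
    induction n with
    | zero => simp [uu_zero]
    | succ n ih => rw [pow_succ, ih, ← uu_add]; congr 1; push_cast; ring
  have := pow_mem hc p
  rw [h5, hodd.neg_pow, h6, CharP.cast_eq_zero, zero_mul, uu_zero] at this
  exact this

/-- Subgroups of the Borel subgroup with the same unipotent and torus parts are conjugate. -/
lemma exists_conj [Finite F] {D I : Subgroup SL(2, F)} (hD : D ≤ bor F) (hI : I ≤ bor F)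
    (hu : upP D = upP I) (ht : toR D = toR I) :
    ∃ s : SL(2, F), D.map (MulAut.conj s).toMonoidHom = I := by
  obtain ⟨⟨ζ, hζ⟩, hgen⟩ := IsCyclic.exists_generator (α := toR D)
  have hgen' : ∀ a ∈ toR D, a ∈ Subgroup.zpowers ζ := by
    intro a ha
    obtain ⟨n, hn⟩ := hgen ⟨a, ha⟩
    exact ⟨n, congrArg Subtype.val hn⟩
  have key : ∀ {D' : Subgroup SL(2, F)} (hD' : D' ≤ bor F), upP D' = upP I → toR D' = toR D →
      ∀ c ∈ D', c ∈ I → c 0 0 = ζ → D' = I := by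
    intro D' hD' h1 h2 c h3 h4 h5
    refine le_antisymm (le_of_gen hD' h1.le h3 h4 fun a ha => ?_)
      (le_of_gen hI h1.ge h4 h3 fun a ha => ?_)
    · convert hgen' a (h2 ▸ ha); exact Units.ext h5
    · convert hgen' a (ht ▸ ha); exact Units.ext h5
  obtain ⟨c, hc, hc1, hc2⟩ := mem_toR.1 hζ
  obtain ⟨c', hc', hc1', hc2'⟩ := mem_toR.1 (ht ▸ hζ)
  have hone : D.map (MulAut.conj (1 : SL(2, F))).toMonoidHom = D := by
    ext g; simp
  by_cases h1 : (ζ : F) = 1
  · exact ⟨1, hone.trans (key hD hu rfl 1 (one_mem _) (one_mem _) h1.symm)⟩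
  by_cases h2 : (ζ : F) = -1
  · have h3 : (2 : F) ≠ 0 := fun h => h1 (by linear_combination h2 - h)
    exact ⟨1, hone.trans (key hD hu rfl (-1) (neg_one_mem hc hc1 (hc2.trans h2) h3)
      (neg_one_mem hc' hc1' (hc2'.trans h2) h3) (by simp [h2]))⟩
  have hd := bor_mul hc1
  have hd' := bor_mul hc1'
  have h3 : c 1 1 - c 0 0 ≠ 0 := by
    intro h
    rw [sub_eq_zero.1 h, hc2] at hd
    rcases mul_self_eq_one_iff.1 hd with h | h
    · exact h1 h
    · exact h2 h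
  obtain ⟨s, hs⟩ : ∃ s, s * (c 1 1 - c 0 0) = c' 0 1 - c 0 1 := ⟨_, div_mul_cancel₀ _ h3⟩
  have h4 : c' 1 1 = c 1 1 := by
    rw [hc2] at hd
    rw [hc2'] at hd'
    exact mul_left_cancel₀ ζ.ne_zero (hd'.trans hd.symm)
  have h5 : uu s * c * (uu s)⁻¹ = c' := by
    refine sl_ext ?_ ?_ ?_ ?_ <;>
      simp only [mul_ap, inv00, inv01, inv10, inv11, uu00, uu01, uu10, uu11, hc1, hc1', h4]
    · rw [hc2, hc2']; ring
    · linear_combination hs
    · ring
    · ring
  have hconj : ∀ g : SL(2, F), g 1 0 = 0 → (uu s * g * (uu s)⁻¹ : SL(2, F)) 1 0 = 0 ∧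
      (uu s * g * (uu s)⁻¹ : SL(2, F)) 0 0 = g 0 0 := by
    intro g hg
    simp [mul_ap, inv00, inv10, hg]
  have huu : ∀ b, uu s * uu b * (uu s)⁻¹ = uu b := by
    intro b
    rw [← uu_add, add_comm, uu_add]; simp
  refine ⟨uu s, key ?_ ?_ ?_ c' ⟨c, hc, h5⟩ hc' hc2'⟩
  · rintro _ ⟨g, hg, rfl⟩
    exact (hconj g (hD hg)).1
  · rw [← hu]
    ext b
    rw [mem_upP, mem_upP]
    constructor
    · rintro ⟨g, hg, hg'⟩
      have : uu s * g * (uu s)⁻¹ = uu s * uu b * (uu s)⁻¹ := by rw [huu]; exact hg'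
      have h6 : g = uu b := by simpa using this
      rwa [← h6]
    · exact fun h => ⟨uu b, h, huu b⟩
  · ext a
    rw [mem_toR, mem_toR]
    constructor
    · rintro ⟨_, ⟨g, hg, rfl⟩, -, h7⟩
      exact ⟨g, hg, hD hg, (hconj g (hD hg)).2.symm.trans h7⟩
    · rintro ⟨g, hg, h6, h7⟩
      exact ⟨_, ⟨g, hg, rfl⟩, (hconj g h6).1, (hconj g h6).2.trans h7⟩

end Pool.Agent.Lib.MP_ba4752_ag
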