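import Mathlib

/-! Counting lemmas for finite group actions. -/

open MulAction Finset

namespace Pool.Agent.Lib.MP_ba4752_ag

variable {Γ X : Type*} [Group Γ] [MulAction Γ X]

lemma orb_mul (x : X) : (orbit Γ x).ncard * Nat.card (stabilizer Γ x) = Nat.card Γ := by
  rw [← index_stabilizer, Subgroup.index_mul_card]

lemma stab_card_eq [Finite Γ] {x y : X} (h : y ∈ orbit Γ x) :
    Nat.card (stabilizer Γ y) = Nat.card (stabilizer Γ x) := by
  have h1 := orb_mul (Γ := Γ) x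
  have h2 := orb_mul (Γ := Γ) y
  rw [orbit_eq_iff.2 h, ← h1] at h2
  refine Nat.eq_of_mul_eq_mul_left ?_ h2
  exact (Set.ncard_pos (Set.finite_range _)).2 ⟨x, mem_orbit_self x⟩

lemma one_orbit [Finite Γ] (T : Finset X) (hT : ∀ (g : Γ), ∀ x ∈ T, g • x ∈ T) (d : ℕ)
    (s : X → ℕ) (hs : ∀ x ∈ T, s x + d = Nat.card (stabilizer Γ x)) (h2 : ∀ x ∈ T, d ≤ s x)
    (hpos : 0 < ∑ x ∈ T, s x) (hlt : ∑ x ∈ T, s x < Nat.card Γ) :
    ∃ x ∈ T, ∑ x ∈ T, s x + d * (orbit Γ x).ncard = Nat.card Γ := by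
  classical
  let O : X → Finset X := fun x => (Set.finite_range fun g : Γ => g • x).toFinset
  have hO : ∀ x y, y ∈ O x ↔ y ∈ orbit Γ x := fun x y => by simp [O, orbit]
  have hc : ∀ x, (O x).card = (orbit Γ x).ncard := fun x => (Set.ncard_eq_toFinset_card _ _).symm
  have hsub : ∀ x ∈ T, O x ⊆ T := by
    intro x hx y hy
    obtain ⟨g, rfl⟩ := (hO x y).1 hy
    exact hT g x hx
  have hsum : ∀ x ∈ T, ∑ y ∈ O x, s y = (orbit Γ x).ncard * s x := by
    intro x hx
    rw [← hc, ← smul_eq_mul, ← sum_const]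
    refine sum_congr rfl fun y hy => ?_
    have h1 := hs x hx
    have h3 := hs y (hsub x hx hy)
    have := stab_card_eq ((hO x y).1 hy)
    omega
  have hall : ∀ x ∈ T, (orbit Γ x).ncard * s x + d * (orbit Γ x).ncard = Nat.card Γ := by
    intro x hx
    rw [← orb_mul (Γ := Γ) x, ← hs x hx]; ring
  have hhalf : ∀ x ∈ T, Nat.card Γ ≤ 2 * ∑ y ∈ O x, s y := by
    intro x hx
    rw [hsum x hx, ← hall x hx]
    have := h2 x hx
    nlinarith
  obtain ⟨x, hx⟩ : T.Nonempty := by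
    by_contra h
    rw [not_nonempty_iff_eq_empty] at h
    simp [h] at hpos
  refine ⟨x, hx, ?_⟩
  have hTO : T = O x := by
    refine Subset.antisymm (fun y hy => ?_) (hsub x hx)
    by_contra hyx
    have hdis : Disjoint (O x) (O y) := by
      rw [disjoint_left]
      intro z h1 h3
      rw [hO] at h1 h3 hyx
      apply hyx
      rw [← orbit_eq_iff.2 h1, orbit_eq_iff.2 h3]
      exact mem_orbit_self y
    have h4 : ∑ z ∈ O x ∪ O y, s z ≤ ∑ z ∈ T, s z :=
      sum_le_sum_of_subset (union_subset (hsub x hx) (hsub y hy))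
    rw [sum_union hdis] at h4
    have := hhalf x hx
    have := hhalf y hy
    omega
  rw [← hall x hx, ← hsum x hx, ← hTO]

open Classical in
lemma card_conj [Fintype Γ] (Q : Γ → Prop) (hQ : ∀ g h, Q (h * g * h⁻¹) ↔ Q g) (h : Γ) (x : X) :
    #{g : Γ | Q g ∧ g • h • x = h • x} = #{g : Γ | Q g ∧ g • x = x} := by
  symm
  refine card_bij (fun g _ => h * g * h⁻¹) ?_ ?_ ?_
  · intro g hg
    simp only [mem_filter, mem_univ, true_and] at hg ⊢
    exact ⟨(hQ g h).2 hg.1, by simp [mul_smul, hg.2]⟩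
  · intro a _ b _ hab
    simpa using hab
  · intro g hg
    simp only [mem_filter, mem_univ, true_and] at hg
    refine ⟨h⁻¹ * g * h, ?_, by group⟩
    simp only [mem_filter, mem_univ, true_and]
    refine ⟨?_, by simp [mul_smul, hg.2]⟩
    have := (hQ g h⁻¹).2 hg.1
    simpa using this

open Classical in
lemma double_count [Fintype Γ] (Q : Γ → Prop) (T : Finset X) :
    ∑ x ∈ T, #{g : Γ | Q g ∧ g • x = x} = ∑ g : Γ with Q g, #{x ∈ T | g • x = x} := by
  simp only [card_eq_sum_ones, sum_filter]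
  rw [sum_comm]
  refine sum_congr rfl fun g _ => ?_
  by_cases h : Q g <;> simp [h]

open Classical in
lemma card_split [Fintype Γ] {Z W : Subgroup Γ} (h : Z ≤ W) (Q : Γ → Prop)
    (hQ : ∀ g, Q g ↔ g ∉ Z ∧ g ∈ W) : #{g : Γ | Q g} + Nat.card Z = Nat.card W := by
  rw [Nat.card_eq_fintype_card, Nat.card_eq_fintype_card, Fintype.card_subtype,
    Fintype.card_subtype, ← card_union_of_disjoint]
  · congr 1
    ext g
    simp only [mem_union, mem_filter, mem_univ, true_and, hQ]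
    have := @h g
    tauto
  · rw [disjoint_left]
    intro g h1 h2
    simp only [mem_filter, mem_univ, true_and, hQ] at h1 h2
    exact h1.1 h2

lemma abstract_count [Finite Γ] (Z W : Subgroup Γ) [hZ : Z.Normal] (Q : Γ → Prop) (R : Finset X)
    (x₀ : X) (hC : ∀ g ∈ Z, ∀ x : X, g • x = x) (hQ : ∀ g h, Q (h * g * h⁻¹) ↔ Q g)
    (hR : orbit Γ x₀ = R) (hR2 : 2 ≤ R.card) (hZW : Z ≤ W)
    (hW : ∀ g, g ∈ W ↔ Q g ∧ g • x₀ = x₀) (h2 : 2 * Nat.card Z ≤ Nat.card W)
    (hfix : ∀ g, g ∉ Z → ∃ x y : X, (∀ z, g • z = z ↔ z = x ∨ z = y) ∧ (Q g ↔ x = y) ∧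
      (Q g → x ∈ R)) :
    ∃ z, z ∉ R ∧ Nat.card Z * (orbit Γ z).ncard + R.card * (2 * Nat.card Z) =
      2 * Nat.card Z + R.card * Nat.card W := by
  classical
  have := Fintype.ofFinite Γ
  have hZc : ∀ g h : Γ, h * g * h⁻¹ ∉ Z ↔ g ∉ Z := fun g h =>
    not_congr ⟨fun h1 => by simpa [mul_assoc] using hZ.conj_mem _ h1 h⁻¹, fun h1 => hZ.conj_mem _ h1 h⟩
  have hRs : ∀ (g : Γ) (x : X), g • x ∈ R ↔ x ∈ R := by
    intro g x
    rw [← mem_coe, ← mem_coe, ← hR, ← orbit_eq_iff, ← orbit_eq_iff, orbit_smul]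
  have hd0 : 0 < Nat.card Z := Nat.card_pos
  have : Nonempty X := ⟨x₀⟩
  choose! x y hxy using hfix
  let T : Finset X := (({g : Γ | g ∉ Z} : Finset Γ).biUnion fun g => {x g, y g}) \ R
  have hT : ∀ z, z ∈ T ↔ (∃ g : Γ, g ∉ Z ∧ g • z = z) ∧ z ∉ R := by
    intro z
    simp only [T, mem_sdiff, mem_biUnion, mem_filter, mem_univ, true_and, mem_insert,
      mem_singleton]
    refine and_congr_left fun _ => exists_congr fun g => and_congr_right fun hg => ?_
    exact ((hxy g hg).1 z).symm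
  clear_value T
  let s : X → ℕ := fun z => #{g : Γ | g ∉ Z ∧ g • z = z}
  let s' : X → ℕ := fun z => #{g : Γ | (g ∉ Z ∧ Q g) ∧ g • z = z}
  have hs : ∀ z, s z + Nat.card Z = Nat.card (stabilizer Γ z) := fun z => by
    convert card_split (Z := Z) (W := stabilizer Γ z) (fun g hg => hC g hg z)
      (fun g => g ∉ Z ∧ g • z = z) fun g => Iff.rfl
  have hs' : s' x₀ + Nat.card Z = Nat.card W := by
    convert card_split hZW (fun g => (g ∉ Z ∧ Q g) ∧ g • x₀ = x₀) fun g => by rw [hW, and_assoc]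
  have hsR : ∑ z ∈ R, s z = R.card * s x₀ := by
    rw [← smul_eq_mul, ← sum_const]
    refine sum_congr rfl fun z hz => ?_
    obtain ⟨h, rfl⟩ : z ∈ orbit Γ x₀ := by rw [hR]; exact hz
    convert card_conj (fun g : Γ => g ∉ Z) hZc h x₀
  have hsR' : ∑ z ∈ R, s' z = R.card * s' x₀ := by
    rw [← smul_eq_mul, ← sum_const]
    refine sum_congr rfl fun z hz => ?_
    obtain ⟨h, rfl⟩ : z ∈ orbit Γ x₀ := by rw [hR]; exact hz
    convert card_conj (fun g : Γ => g ∉ Z ∧ Q g) (fun g h => and_congr (hZc g h) (hQ g h)) h x₀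
  have hcount : ∑ z ∈ R, s z + ∑ z ∈ T, s z + ∑ z ∈ R, s' z + 2 * Nat.card Z =
      2 * Nat.card Γ := by
    have f1 : ∑ z ∈ R, s z = ∑ g : Γ with g ∉ Z, #{z ∈ R | g • z = z} := by
      convert double_count (fun g : Γ => g ∉ Z) R
    have f2 : ∑ z ∈ T, s z = ∑ g : Γ with g ∉ Z, #{z ∈ T | g • z = z} := by
      convert double_count (fun g : Γ => g ∉ Z) T
    have f3 : ∑ z ∈ R, s' z = ∑ g : Γ with g ∉ Z,
        if Q g then #{z ∈ R | g • z = z} else 0 := by
      rw [← sum_filter, filter_filter]; convert double_count (fun g : Γ => g ∉ Z ∧ Q g) R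
    have e4 : ∑ z ∈ R, s z + ∑ z ∈ T, s z + ∑ z ∈ R, s' z = ∑ g : Γ with g ∉ Z, 2 := by
      rw [f1, f2, f3, ← sum_add_distrib, ← sum_add_distrib]
      refine sum_congr rfl fun g hg => ?_
      obtain ⟨h1, h2, h3⟩ := hxy g (mem_filter.1 hg).2
      have h4 : #{z ∈ R | g • z = z} + #{z ∈ T | g • z = z} = #{x g, y g} := by
        rw [← card_union_of_disjoint]
        · congr 1
          ext z
          rw [mem_union, mem_filter, mem_filter, hT, mem_insert, mem_singleton, ← h1]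
          refine ⟨fun h => h.elim (·.2) (·.2), fun h => ?_⟩
          by_cases hz : z ∈ R
          · exact Or.inl ⟨hz, h⟩
          · exact Or.inr ⟨⟨⟨g, (mem_filter.1 hg).2, h⟩, hz⟩, h⟩
        · rw [disjoint_left]
          intro z h4 h5
          exact ((hT z).1 (mem_filter.1 h5).1).2 (mem_filter.1 h4).1
      split_ifs with hp
      · have h5 := h2.1 hp
        have h7 : ({z ∈ R | g • z = z} : Finset _) = {x g} := by
          ext z
          simp only [mem_filter, h1, ← h5, or_self, mem_singleton, and_iff_right_iff_imp]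
          rintro rfl; exact h3 hp
        rw [h4, h7, ← h5]; simp
      · rw [h4, card_pair (fun h => hp (h2.2 h))]
    have e5 : #{g : Γ | g ∉ Z} + Nat.card Z = Nat.card Γ := by
      rw [← Subgroup.card_top (G := Γ)]
      convert card_split (Z := Z) (W := ⊤) le_top (fun g => g ∉ Z) fun g => by simp
    rw [e4, sum_const, smul_eq_mul, ← e5]
    ring
  have hc := orb_mul (Γ := Γ) x₀
  rw [hR, Set.ncard_coe_finset] at hc
  have hWb : Nat.card W ≤ Nat.card (stabilizer Γ x₀) :=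
    Subgroup.card_le_of_le fun g hg => ((hW g).1 hg).2
  rw [hsR, hsR'] at hcount
  have hA : ∑ z ∈ T, s z + 2 * Nat.card Z + R.card * Nat.card W =
      Nat.card Γ + R.card * (2 * Nat.card Z) := by
    rw [← hs] at hc
    rw [← hs', mul_add]
    rw [mul_add] at hc
    have : R.card * (2 * Nat.card Z) = 2 * (R.card * Nat.card Z) := by ring
    omega
  obtain ⟨z, hz, hz'⟩ := one_orbit (Γ := Γ) T (by
      intro g z hz
      obtain ⟨⟨h, h1, h2⟩, h4⟩ := (hT z).1 hz
      exact (hT _).2 ⟨⟨g * h * g⁻¹, (hZc _ _).2 h1, by simp [mul_smul, h2]⟩,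
        (hRs g z).not.2 h4⟩) (Nat.card Z) s (fun z _ => hs z) (by
      intro z hz
      obtain ⟨⟨h, h1, h2⟩, -⟩ := (hT z).1 hz
      have h4 : Nat.card Z ∣ s z + Nat.card Z := by
        rw [hs]
        exact Subgroup.card_dvd_of_le fun g hg => hC g hg z
      exact Nat.le_of_dvd (card_pos.2 ⟨h, by simp [h1, h2]⟩) ((Nat.dvd_add_left dvd_rfl).1 h4))
    (by
      have h3 := Nat.mul_le_mul_left R.card hWb
      have h4 := Nat.mul_le_mul_right (2 * Nat.card Z) hR2
      omega)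
    (by
      have h3 := Nat.mul_le_mul_left R.card h2
      omega)
  exact ⟨z, ((hT z).1 hz).2, by omega⟩

lemma arith {q N π m Y : ℕ} (hq : q = π * N) (hπ : 3 ≤ π) (hN : 0 < N) (hm : m + 1 ≤ π)
    (hY : Y ∣ q + 1) (h : 2 + (q + 1) * (π - 2) = Y * π * m) (hpar : Odd q ∨ Even q) :
    N = 1 ∨ (π = 3 ∧ N = 3) := by
  obtain ⟨r, rfl⟩ : ∃ r, π = r + 2 := ⟨π - 2, by omega⟩
  simp only [Nat.add_sub_cancel] at h
  have h1 : Y * m + 2 * N = q + 1 := by
    have : (r + 2) * (Y * m + 2 * N) = (r + 2) * (q + 1) := by subst hq; nlinarith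
    exact Nat.eq_of_mul_eq_mul_left (by omega) this
  have h2 : Y ∣ 2 * N := (Nat.dvd_add_right (Dvd.intro _ rfl)).1 (h1 ▸ hY)
  have h3 : Nat.Coprime Y N := by
    refine Nat.Coprime.coprime_dvd_left hY ?_
    rw [hq, add_comm, Nat.coprime_add_mul_right_left]
    simp
  have h4 : Y ∣ 2 := h3.dvd_of_dvd_mul_right h2
  rcases (Nat.dvd_prime Nat.prime_two).1 h4 with rfl | rfl
  · left
    by_contra hne
    have : 2 ≤ N := by omega
    nlinarith
  · have hodd : Odd q := by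
      rcases hpar with h | h
      · exact h
      · obtain ⟨a, ha⟩ := h
        obtain ⟨b, hb⟩ := hY
        omega
    rw [hq, Nat.odd_mul] at hodd
    obtain ⟨⟨a, ha⟩, ⟨b, hb⟩⟩ := hodd
    by_cases hb0 : b = 0
    · left; omega
    · right
      have h5 : 1 ≤ a := by omega
      have h6 : 1 ≤ b := by omega
      have h7 : r = 2 * a - 1 := by omega
      obtain ⟨a, rfl⟩ : ∃ a', a = a' + 1 := ⟨a - 1, by omega⟩
      obtain ⟨b, rfl⟩ : ∃ b', b = b' + 1 := ⟨b - 1, by omega⟩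
      have h8 : r = 2 * a + 1 := by omega
      subst h8 hb hq
      have h9 : a = 0 := by nlinarith
      have h10 : b = 0 := by nlinarith
      omega

end Pool.Agent.Lib.MP_ba4752_ag
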