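import Pool.Agent.Lib.MP_ba4752_ag.Borel
import Pool.Agent.Lib.MP_ba4752_ag.Count

/-! Subgroups of `SL(2, F)` that are transitive on the projective line. -/

open scoped MatrixGroups
open Finset OnePoint MulAction

namespace Pool.Agent.Lib.MP_ba4752_ag

variable {F : Type*} [Field F] [Fintype F]

lemma stab_dvd {k : Type*} [Field k] [Algebra F k] [DecidableEq k] (H : Subgroup SL(2, F)) {z : k}
    (hz : z ^ Fintype.card F ≠ z) :
    Nat.card (stabilizer H (z : OnePoint k)) ∣ Fintype.card F + 1 := by
  have hfix : ∀ g : stabilizer H (z : OnePoint k), algebraMap F k (g.1.1 1 0) * z ^ 2 +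
      (algebraMap F k (g.1.1 1 1) - algebraMap F k (g.1.1 0 0)) * z -
      algebraMap F k (g.1.1 0 1) = 0 := fun g => mob_fix.1 g.2
  let f : stabilizer H (z : OnePoint k) →* k :=
    { toFun := fun g => algebraMap F k (g.1.1 1 0) * z + algebraMap F k (g.1.1 1 1)
      map_one' := by simp
      map_mul' := fun a b => by
        simp only [Subgroup.coe_mul, mul_ap, map_add, map_mul]
        linear_combination (-algebraMap F k (a.1.1 1 0)) * hfix b }
  have hf : ∀ g, f g = algebraMap F k (g.1.1 1 0) * z + algebraMap F k (g.1.1 1 1) := fun g => rfl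
  have hfq : ∀ g, f g ^ Fintype.card F =
      algebraMap F k (g.1.1 1 0) * z ^ Fintype.card F + algebraMap F k (g.1.1 1 1) := by
    intro g
    rw [hf, add_pow_card F, mul_pow, map_pow_card, map_pow_card]
  have hz' : z ^ Fintype.card F - z ≠ 0 := sub_ne_zero.2 hz
  refine card_dvd_of_pow f ?_ ?_
  · rw [injective_iff_map_eq_one]
    intro g hg
    have h1 := hfq g
    rw [hg, one_pow] at h1
    rw [hf] at hg
    have h2 : algebraMap F k (g.1.1 1 0) * (z ^ Fintype.card F - z) = 0 := by
      linear_combination -h1 - hg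
    have h3 : g.1.1 1 0 = 0 := by simpa [hz'] using h2
    have h4 : g.1.1 1 1 = 1 := by simpa [h3] using hg
    have h5 : g.1.1 0 0 = 1 := by simpa [h4] using bor_mul h3
    have h6 : g.1.1 0 1 = 0 := by simpa [h3, h4, h5] using hfix g
    exact Subtype.ext (Subtype.ext (sl_ext h5 h6 h3 h4))
  · intro g
    have h1 := hfix g
    have h2 := congrArg (· ^ Fintype.card F) h1
    simp only [sub_pow_card F, add_pow_card F, mul_pow, map_pow_card,
      zero_pow Fintype.card_ne_zero] at h2
    rw [← pow_mul, mul_comm 2, pow_mul] at h2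
    have hd := congrArg (algebraMap F k) (sl_det g.1.1)
    simp only [map_sub, map_mul, map_one] at hd
    rw [pow_succ, hfq, hf]
    set a := algebraMap F k (g.1.1 0 0)
    set b := algebraMap F k (g.1.1 0 1)
    set c := algebraMap F k (g.1.1 1 0)
    set d := algebraMap F k (g.1.1 1 1)
    set y := z ^ Fintype.card F
    have h3 : c * (y + z) + (d - a) = 0 := by
      refine mul_left_cancel₀ hz' ?_
      linear_combination h2 - h1
    linear_combination hd + (c * z + d) * h3 - c * h1

theorem dickson (H : Subgroup SL(2, F))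
    (hc : Nat.card H = (Fintype.card F + 1) * Nat.card ↥(H ⊓ bor F))
    (h3 : 3 ≤ Nat.card (upP H)) (h9 : Fintype.card F = 9 → Nat.card (upP H) ≠ 3) : H = ⊤ := by
  classical
  let k := AlgebraicClosure F
  let Fr : k →+* k := (FiniteField.frobeniusAlgHom F k).toRingHom
  have hFr : ∀ (g : H) (x : OnePoint k), OnePoint.map Fr (g • x) = g • OnePoint.map Fr x :=
    fun g x => map_mob Fr (fun c => map_pow_card c) g.1 x
  let R : Finset (OnePoint k) := univ.image (OnePoint.map (algebraMap F k))
  have hR : ∀ x, x ∈ R ↔ OnePoint.map Fr x = x := by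
    intro x
    simp only [R, mem_image, mem_univ, true_and]
    constructor
    · rintro ⟨a, rfl⟩
      cases a with
      | infty => rfl
      | coe a => exact congrArg _ (map_pow_card a)
    · intro h
      cases x with
      | infty => exact ⟨∞, rfl⟩
      | coe x =>
        obtain ⟨c, rfl⟩ := exists_of_pow_card (F := F) (coe_eq_coe.1 h)
        exact ⟨c, rfl⟩
  have hRc : R.card = Fintype.card F + 1 := by
    rw [← Fintype.card_option, ← card_univ]
    exact card_image_of_injective _ (Option.map_injective (algebraMap F k).injective)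
  have hRs : ∀ (g : H) (x : OnePoint k), g • x ∈ R ↔ x ∈ R := by
    intro g x
    rw [hR, hR, hFr, smul_left_cancel_iff]
  have hst : Nat.card (stabilizer H (∞ : OnePoint k)) = Nat.card ↥(H ⊓ bor F) :=
    card_of_eq_subgroupOf fun g => mob_infty
  have hpos : 0 < Nat.card ↥(H ⊓ bor F) := Nat.card_pos
  have horb : orbit H (∞ : OnePoint k) = R := by
    refine Set.eq_of_subset_of_ncard_le ?_ ?_
    · rintro _ ⟨g, rfl⟩
      exact (hRs g _).2 ((hR _).2 rfl)
    · have := orb_mul (Γ := H) (∞ : OnePoint k)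
      rw [hst, hc] at this
      rw [Nat.eq_of_mul_eq_mul_right hpos this, Set.ncard_coe_finset, hRc]
  have hle := Subgroup.card_le_of_le (upP_le_pmP H)
  have hle' : Nat.card (AddSubgroup.toSubgroup (upP H)) = Nat.card (upP H) := rfl
  obtain ⟨N, hN⟩ : Nat.card (pmP H) ∣ Fintype.card F := by
    have := Subgroup.card_subgroup_dvd_card (pmP H)
    rwa [Nat.card_eq_fintype_card (α := Multiplicative F), Fintype.card_multiplicative] at this
  have hN0 : 0 < N := Nat.pos_of_ne_zero fun h => by simp [h] at hN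
  suffices hN1 : N = 1 ∨ (Nat.card (pmP H) = 3 ∧ N = 3) by
    rcases hN1 with rfl | ⟨h1, rfl⟩
    · have h1 : pmP H = ⊤ := by
        rw [← Subgroup.card_eq_iff_eq_top, Nat.card_eq_fintype_card (α := Multiplicative F),
          Fintype.card_multiplicative, hN, mul_one]
      have h2 : (((0 : k) : k) : OnePoint k) ∈ orbit H (∞ : OnePoint k) := by
        rw [horb, mem_coe, hR]; simp
      obtain ⟨g, hg⟩ := h2
      refine eq_top_of_uu H (uu_mem_of_pmP h1) g.2 ?_
      have h4 : g.1 1 0 ≠ 0 := fun h => by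
        have : g • (∞ : OnePoint k) = ∞ := mob_infty.2 h
        simp [this] at hg
      have h5 : g • (∞ : OnePoint k) = _ := mob_infty_eq h4
      simp only [h5, coe_eq_coe, map_eq_zero, div_eq_zero_iff, h4, or_false] at hg
      exact hg
    · exact (h9 (by omega) (by omega)).elim
  obtain ⟨m, hm, hm'⟩ := card_bor H (by omega)
  have hW := card_wS H
  have hZ : Nat.card ((cenS F).subgroupOf H) = Nat.card ↥(H ⊓ cenS F) :=
    card_of_eq_subgroupOf fun g => Iff.rfl
  have hW' : Nat.card ((wS F).subgroupOf H) = Nat.card ↥(H ⊓ wS F) :=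
    card_of_eq_subgroupOf fun g => Iff.rfl
  have hq := Fintype.one_lt_card (α := F)
  have : ((cenS F).subgroupOf H).Normal := ⟨fun g hg h => (cen_conj_iff h.1).2 hg⟩
  obtain ⟨z, hzR, hz⟩ := abstract_count ((cenS F).subgroupOf H) ((wS F).subgroupOf H)
    (fun g : H => Par g.1) R ∞ (fun g hg x => Cen.smul hg x) (fun g h => par_conj_iff h.1) horb
    (by omega) (by
      rintro g ⟨h1, h2, h4⟩
      refine ⟨h2, ?_⟩
      have := bor_mul h2
      rw [← h4] at this
      linear_combination this)
    (fun g => mem_wS_iff.trans (and_congr_right fun _ => mob_infty.symm))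
    (by rw [hZ, hW', hW, mul_comm]; exact Nat.mul_le_mul_left _ (by omega)) (by
      intro g hg
      obtain ⟨x, y, h1, h2⟩ := fix_card (k := k) hg
      refine ⟨x, y, h1, h2, fun hp => ?_⟩
      rw [hR]
      have h7 : g • x = x := (h1 _).2 (Or.inl rfl)
      have := (h1 (OnePoint.map Fr x)).1 ((hFr g x).symm.trans (by rw [h7]))
      rwa [← h2.1 hp, or_self] at this)
  rw [hZ, hW', hW, hRc] at hz
  rw [hm', hW] at hc
  have hd0 : 0 < Nat.card ↥(H ⊓ cenS F) := Nat.card_pos
  have hO : (orbit H z).ncard = 2 + (Fintype.card F + 1) * (Nat.card (pmP H) - 2) := by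
    refine Nat.eq_of_mul_eq_mul_left hd0 ?_
    obtain ⟨r, hr⟩ : ∃ r, Nat.card (pmP H) = r + 2 := ⟨Nat.card (pmP H) - 2, by omega⟩
    rw [hr] at hz
    rw [hr, Nat.add_sub_cancel]
    nlinarith
  cases z with
  | infty => exact (hzR ((hR _).2 rfl)).elim
  | coe z =>
    obtain ⟨y0, hy0⟩ := stab_dvd H (z := z) fun h => hzR ((hR _).2 (congrArg _ h))
    obtain ⟨z0, hz0⟩ : Nat.card ↥(H ⊓ cenS F) ∣ Nat.card (stabilizer H (z : OnePoint k)) := by
      rw [← hZ]
      exact Subgroup.card_dvd_of_le fun g hg => Cen.smul hg _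
    have h4 := orb_mul (Γ := H) (z : OnePoint k)
    have h5 : 0 < Nat.card (stabilizer H (z : OnePoint k)) := Nat.card_pos
    refine arith (Y := Nat.card ↥(H ⊓ cenS F) * y0) hN (by omega) hN0 hm
      ⟨z0, by rw [hy0, hz0]; ring⟩ ?_ (Nat.even_or_odd _).symm
    refine Nat.eq_of_mul_eq_mul_right h5 ?_
    rw [← hO, h4, hc, hy0]
    ring

end Pool.Agent.Lib.MP_ba4752_ag
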