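import Pool.Agent.Lib.MP_ba4752_ag.Local
import Pool.Agent.Lib.MP_ba4752_ag.AddPoly
import Pool.Agent.Lib.MP_ba4752_ag.Dickson

/-! The covering with group `SL(2, F)` and prescribed inertia. -/

set_option linter.unusedSectionVars false

open Polynomial Finset MulAction
open scoped MatrixGroups

namespace Pool.Agent.Lib.MP_ba4752_ag

open Pool.Agent.Lib.MP_e06174_ag Place

section gal

variable {k K L : Type*} [Field k] [Field K] [Field L] [Algebra k K] [Algebra K L] [Algebra k L]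
  [IsScalarTower k K L] {w : Place k L} {v : Place k K} {e : ℕ}

lemma over_smul (h : w.Over (IsScalarTower.toAlgHom k K L) v e) (σ : L ≃ₐ[K] L) :
    (σ • w).Over (IsScalarTower.toAlgHom k K L) v e :=
  ⟨h.1, fun x => by rw [← h.2 x]; simp⟩

lemma le_card_stab [FiniteDimensional K L] [IsGalois K L]
    (h : w.Over (IsScalarTower.toAlgHom k K L) v e) :
    e ≤ Nat.card (stabilizer (L ≃ₐ[K] L) w) := by
  have hf : (orbit (L ≃ₐ[K] L) w).Finite := Set.finite_range _
  have h1 := sum_ram_le v hf.toFinset (fun _ => e) fun w' hw' => by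
    obtain ⟨σ, rfl⟩ := hf.mem_toFinset.1 hw'
    exact over_smul h σ
  rw [sum_const, smul_eq_mul, ← Set.ncard_eq_toFinset_card _ hf, ← IsGalois.card_aut_eq_finrank,
    ← orb_mul (Γ := L ≃ₐ[K] L) w] at h1
  exact Nat.le_of_mul_le_mul_left h1 ((Set.ncard_pos hf).2 ⟨w, mem_orbit_self w⟩)

lemma ge_gal {σ : L ≃ₐ[K] L} (hσ : σ ∈ stabilizer (L ≃ₐ[K] L) w) {n : ℤ} {z : L}
    (h : w.Ge n z) : w.Ge n (σ z) := (ge_smul_of_mem hσ).2 h

lemma ord_gal {σ : L ≃ₐ[K] L} (hσ : σ ∈ stabilizer (L ≃ₐ[K] L) w) (z : L) :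
    w.ord (σ z) = w.ord z := ord_smul_of_mem hσ z

lemma ge_gal_sub (hres : ∀ z, w.Ge 0 z → ∃ c, w.At z c) {σ : L ≃ₐ[K] L}
    (hσ : σ ∈ stabilizer (L ≃ₐ[K] L) w) {z : L} (h : w.Ge 0 z) : w.Ge 1 (σ z - z) := by
  obtain ⟨c, hc⟩ := hres z h
  have h1 := ge_gal hσ hc
  rw [map_sub, IsScalarTower.algebraMap_apply k K L, AlgEquiv.commutes,
    ← IsScalarTower.algebraMap_apply] at h1
  simpa using h1.sub hc

lemma isCoord_ext [FiniteDimensional K L] {x : K} (h : IsCoord k x) :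
    IsCoord k (algebraMap K L x) := by
  obtain ⟨_, _, _, _, _, _, rfl, -⟩ := h.setup
  let i1 : Algebra k[X] L := ((algebraMap K L).comp (algebraMap k[X] K)).toAlgebra
  let i2 : Algebra (RatFunc k) L := ((algebraMap K L).comp (algebraMap (RatFunc k) K)).toAlgebra
  have : IsScalarTower (RatFunc k) K L := .of_algebraMap_eq fun _ => rfl
  have : IsScalarTower k[X] (RatFunc k) L := .of_algebraMap_eq fun P =>
    congrArg (algebraMap K L) (IsScalarTower.algebraMap_apply k[X] (RatFunc k) K P)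
  have : IsScalarTower k (RatFunc k) L := .of_algebraMap_eq fun c => by
    rw [IsScalarTower.algebraMap_apply k K L, IsScalarTower.algebraMap_apply k (RatFunc k) K]; rfl
  have : FiniteDimensional (RatFunc k) L := Module.Finite.trans K L
  exact isCoord_setting (k := k) (F := L)

end gal

variable {k F K L : Type*} [Field k] [Field F] [Fintype F] [Field K] [Field L] [Algebra F k]
  [Algebra k K] [Algebra F K] [Algebra K L] [Algebra k L] [Algebra F L] [IsScalarTower k K L]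
  [IsScalarTower F k L] [IsScalarTower F K L] {a : K} {w : Place k L} {x y : L}

lemma stab_eq_bot [IsSplittingField K L (fp F a)] (hres : ∀ z, w.Ge 0 z → ∃ c, w.At z c)
    (ha : w.Ge 0 (algebraMap K L a)) : stabilizer (L ≃ₐ[K] L) w = ⊥ := by
  rw [eq_bot_iff]
  intro σ hσ
  refine eq_one_of_rt (F := F) (a := a) σ fun z hz => ?_
  by_contra hne
  have h0 : z ≠ 0 := by rintro rfl; simp at hne
  have h1 := ge_gal_sub hres hσ (ge_of_le (hz.ord_eq_zero ha h0).ge)
  have h2 := ((hz.map σ).sub hz).ord_eq_zero ha (sub_ne_zero.2 hne)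
  have := h1.le (sub_ne_zero.2 hne)
  omega

lemma ord_prod_gal [FiniteDimensional K L] [IsGalois K L]
    (hconst : ∀ z : K, (∀ v : Place k K, v.Ge 0 z) → ∃ c, z = algebraMap k K c) {ξ : Place k K}
    (ha : ∀ v, v ≠ ξ → v.Ge 0 a) {e : ℕ} (hw : w.Over (IsScalarTower.toAlgHom k K L) ξ e)
    (hx : IsRt F (algebraMap K L a) x) (h0 : x ≠ 0) : ∑ σ : L ≃ₐ[K] L, w.ord (σ x) = 0 := by
  have h1 := Algebra.norm_eq_prod_automorphisms K x
  have h2 : ∀ w : Place k L, w.ord (algebraMap K L (Algebra.norm K x)) =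
      ∑ σ : L ≃ₐ[K] L, w.ord (σ x) := fun w => by
    rw [h1, w.ord_prod _ _ fun σ _ => by simpa using h0]
  have h3 : ∀ v, v ≠ ξ → v.ord (Algebra.norm K x) = 0 := by
    intro v hv
    obtain ⟨w', e', hw'⟩ := exists_over L v
    have h4 := hw'.2 (Algebra.norm K x)
    rw [IsScalarTower.coe_toAlgHom', h2, sum_eq_zero fun σ _ => (hx.map σ).ord_eq_zero
      ((hw'.ge_zero_iff a).2 (ha v hv)) (by simpa using h0)] at h4
    have := hw'.1
    rcases mul_eq_zero.1 h4.symm with h | h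
    · omega
    · exact h
  have h4 : ξ.ord (Algebra.norm K x) = 0 := by
    rcases le_total 0 (ξ.ord (Algebra.norm K x)) with h | h
    · obtain ⟨c, hc⟩ := hconst (Algebra.norm K x) fun v => by
        by_cases hv : v = ξ
        · exact hv ▸ ge_of_le h
        · exact ge_of_le (h3 v hv).ge
      rw [hc, ord_const]
    · obtain ⟨c, hc⟩ := hconst (Algebra.norm K x)⁻¹ fun v => by
        by_cases hv : v = ξ
        · exact hv ▸ ge_of_le (by simpa using h)
        · exact ge_of_le (by simp [h3 v hv])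
      rw [← neg_eq_zero, ← ord_inv, hc, ord_const]
  rw [← h2, ← IsScalarTower.coe_toAlgHom' k, hw.2, h4, mul_zero]

lemma card_eq_mul [FiniteDimensional K L] (ρ : (L ≃ₐ[K] L) →* SL(2, F))
    (hρ : ∀ σ, σ x = algebraMap F L (ρ σ 0 0) * x + algebraMap F L (ρ σ 1 0) * y)
    (hx : IsRt F (algebraMap K L a) x) (hW : Wr F x y = 1) (ha : w.ord (algebraMap K L a) < 0)
    (h1 : 0 < w.ord x) (hs : ∑ σ : L ≃ₐ[K] L, w.ord (σ x) = 0) :
    Nat.card (L ≃ₐ[K] L) = (Fintype.card F + 1) * Nat.card ((bor F).comap ρ) := by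
  classical
  have hq : (2 : ℤ) ≤ Fintype.card F := by exact_mod_cast Fintype.one_lt_card (α := F)
  have h0 := (ne_zero_of_wr hW).1
  have h2 : ∀ σ : L ≃ₐ[K] L, Fintype.card F * w.ord (σ x) + w.ord x =
      if σ ∈ (bor F).comap ρ then (Fintype.card F + 1) * w.ord x else 0 := by
    intro σ
    split_ifs with hσ
    · have h3 : ρ σ 1 0 = 0 := hσ
      rw [hρ, h3, map_zero, zero_mul, add_zero, w.ord_mul (by simpa using bor_ne h3) h0,
        ord_constF]
      ring
    · have h3 : w.ord (σ x) ≤ 0 := by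
        by_contra h3
        rw [hρ] at h3
        exact hσ (eq_zero_of_small hW h1 (not_le.1 h3))
      have h4 := (hx.map σ).large ha (by simpa using h0) h3
      have h5 := hx.small ha h1
      refine mul_left_cancel₀ (a := (Fintype.card F : ℤ) - 1) (by omega) ?_
      linear_combination h4 + h5
  have h3 := sum_congr (s₁ := univ) rfl fun σ _ => h2 σ
  rw [sum_add_distrib, ← mul_sum, hs, ← sum_filter, sum_const, sum_const, card_univ] at h3
  rw [Nat.card_eq_fintype_card, Nat.card_eq_fintype_card, Fintype.card_subtype]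
  zify
  refine mul_right_cancel₀ h1.ne' ?_
  simp only [nsmul_eq_mul] at h3
  linear_combination h3

lemma gal_aeval (σ : L ≃ₐ[K] L) (z : L) (f : F[X]) : σ (aeval z f) = aeval (σ z) f :=
  (aeval_algHom_apply (σ.restrictScalars F) z f).symm

lemma exists_num (p : ℕ) [Fact p.Prime] [CharP F p] (I : Subgroup SL(2, F))
    (h2 : 2 ≤ Nat.card (upP I)) : ∃ n₀ r, Num F (Nat.card (upP I)) (Nat.card (img (upP I)))
      (Nat.card (toR I)) n₀ (sp (img (upP I))) r := by
  obtain ⟨n₀, hn₀⟩ := Subgroup.card_subgroup_dvd_card (toR I)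
  have hq := Fintype.one_lt_card (α := F)
  have hm : Nat.card (toR I) * n₀ + 1 = Fintype.card F := by
    classical
    rw [← hn₀, Nat.card_eq_fintype_card, Fintype.card_units]; omega
  refine ⟨n₀, fun i => (Fintype.card F + 1) * (Nat.card (img (upP I)) - i) / Nat.card (toR I),
    card_img _, hm, h2, sp_monic _, sp_natDegree _, fun i hi hc => ?_⟩
  obtain ⟨h3, h4, h5⟩ := img_coeff p (upP I) (toR I) (fun ζ hζ b hb => smul_mem_upP hζ hb) hc hi
  refine ⟨h4, Nat.mul_div_cancel' h5, Nat.div_le_of_le_mul ?_⟩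
  have h6 := card_img (upP I)
  obtain ⟨c, hc⟩ := Nat.exists_eq_add_of_le hi.le
  rw [hc] at h6 ⊢
  rw [Nat.add_sub_cancel_left, ← mul_assoc]
  obtain ⟨u, hu⟩ : ∃ u, Nat.card (toR I) * n₀ = u := ⟨_, rfl⟩
  rw [hu] at hm ⊢
  rw [← hm] at h6 ⊢
  nlinarith

lemma stab_parts [IsAlgClosed k] [FiniteDimensional K L] [IsGalois K L] (p : ℕ) [Fact p.Prime]
    [CharP F p] (hres : ∀ z, w.Ge 0 z → ∃ c, w.At z c) {I : Subgroup SL(2, F)} {n₀ : ℕ}
    {r : ℕ → ℕ} (hN : Num F (Nat.card (upP I)) (Nat.card (img (upP I)))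
      (Nat.card (toR I)) n₀ (sp (img (upP I))) r) {t : K} {ξ : Place k K} {j e : ℕ}
    (hj : ξ.ord t = -j) (hj0 : 0 < j) (hjc : j.Coprime (Nat.card (upP I) * Nat.card (toR I)))
    (hw : w.Over (IsScalarTower.toAlgHom k K L) ξ e)
    (hx : IsRt F (aeval (algebraMap K L t) (ap (n₀ * Nat.card (img (upP I)))
      (Nat.card (img (upP I))) (sp (img (upP I))) r)) x) (hW : Wr F x y = 1) (h1 : 0 < w.ord x)
    (hκ : w.Ge 1 (x⁻¹ ^ Nat.card (toR I) / algebraMap K L t ^ Nat.card (img (upP I)) - 1))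
    (ρ : (L ≃ₐ[K] L) →* SL(2, F)) (hinj : Function.Injective ρ)
    (hρ : ∀ σ, σ x = algebraMap F L (ρ σ 0 0) * x + algebraMap F L (ρ σ 1 0) * y ∧
      σ y = algebraMap F L (ρ σ 0 1) * x + algebraMap F L (ρ σ 1 1) * y) :
    (stabilizer (L ≃ₐ[K] L) w).map ρ ≤ bor F ∧ upP ((stabilizer (L ≃ₐ[K] L) w).map ρ) = upP I ∧
      toR ((stabilizer (L ≃ₐ[K] L) w).map ρ) = toR I := by
  have hp : p.Prime := Fact.out
  have : CharP L p := charP_of_injective_algebraMap (algebraMap F L).injective p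
  have h0 := (ne_zero_of_wr hW).1
  have ht : w.ord (algebraMap K L t) = -(e * j) := by
    rw [← IsScalarTower.coe_toAlgHom' k, hw.2, hj, mul_neg]
  have he := hw.1
  have ht' : w.ord (algebraMap K L t) < 0 := by
    rw [ht, neg_lt_zero]; positivity
  obtain ⟨r', -, hr'⟩ := FiniteField.card F p
  obtain ⟨f, -, hf⟩ := (Nat.dvd_prime_pow hp).1 (hr' ▸ Dvd.intro _ hN.pi_mul)
  obtain ⟨o1, hest⟩ := hN.estimate (fun z => by rw [hf, sub_pow_char_pow, one_pow]) ht' hx h1 hκ
  set s := x⁻¹ ^ Nat.card (upP I) / algebraMap K L t ^ n₀ with hs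
  have hη : w.Ge 0 (aeval (y / x) (sp (upP I)) - s ^ (Fintype.card F + 1)) := by
    refine ge_zero_of_monic hN.monic (hN.deg ▸ hN.N_pos) ?_
    rwa [aeval_sp_sub, aeval_img, wr_div hW]
  set D := (stabilizer (L ≃ₐ[K] L) w).map ρ with hD
  have hb : ∀ σ ∈ stabilizer (L ≃ₐ[K] L) w, ρ σ 1 0 = 0 := fun σ hσ =>
    eq_zero_of_small (c := ρ σ 0 0) hW h1 (by rwa [← (hρ σ).1, ord_gal hσ])
  have hDb : D ≤ bor F := by
    rintro _ ⟨σ, hσ, rfl⟩
    exact hb σ hσ
  have hu : upP D ≤ upP I := by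
    rintro b ⟨σ, hσ, hσb⟩
    obtain ⟨h2, h3⟩ := hρ σ
    simp only [hσb, uu00, uu01, uu10, uu11, map_one, map_zero, one_mul, zero_mul, add_zero]
      at h2 h3
    have h4 := ge_gal_sub hres hσ hη
    have h5 : σ (y / x) = y / x + algebraMap F L b := by
      rw [map_div₀, h2, h3]; field_simp; ring
    have h6 : σ s = s := by simp [hs, h2]
    rw [map_sub, gal_aeval, h5, map_pow, h6, aeval_sp_add, sub_sub_sub_cancel_right,
      add_sub_cancel_left, aeval_algebraMap_apply, coe_aeval_eq_eval] at h4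
    exact eval_sp_eq_zero.1 (constF_eq_zero h4)
  have ht0 : algebraMap K L t ≠ 0 := by rintro h; simp [h] at ht'
  have hT : ∀ ζ ∈ toR D, ζ ^ Nat.card (toR I) = 1 := by
    intro ζ hζ
    obtain ⟨_, ⟨σ, hσ, rfl⟩, h2, h3⟩ := mem_toR.1 hζ
    have h4 := (hρ σ).1
    rw [h2, h3, map_zero, zero_mul, add_zero] at h4
    have h5 := ge_gal hσ hκ
    rw [map_sub, map_one, map_div₀, map_pow, map_pow, map_inv₀, h4, AlgEquiv.commutes] at h5
    have h6 := (h5.mul' (ge_constF (F := F) (ζ ^ Nat.card (toR I))) (l := 1) (by simp)).sub hκ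
    have h7 : algebraMap F L ζ ≠ 0 := by simp
    have h8 : w.Ge 1 (algebraMap F L (1 - ζ ^ Nat.card (toR I))) := by
      convert h6 using 1
      simp only [map_sub, map_one, map_pow, mul_inv, mul_pow, inv_pow]
      field_simp
      ring
    have := constF_eq_zero h8
    rw [← Units.val_eq_one, Units.val_pow_eq_pow_val]
    linear_combination -this
  have hT' : toR D ≤ toR I := by
    have hNZ : NeZero (Nat.card (toR I)) := ⟨hN.m_pos.ne'⟩
    have h2 : toR I = rootsOfUnity (Nat.card (toR I)) F := by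
      refine Subgroup.eq_of_le_of_card_ge (fun ζ hζ => ?_) ?_
      · exact congrArg Subtype.val (pow_card_eq_one' (x := (⟨ζ, hζ⟩ : toR I)))
      · exact card_rootsOfUnity F _
    intro ζ hζ
    rw [h2]
    exact hT ζ hζ
  have hs0 : w.ord s < 0 := by
    have : (0 : ℤ) < Nat.card (toR I) := by exact_mod_cast hN.m_pos
    nlinarith
  have hs1 : s ≠ 0 := by rintro h; simp [h] at hs0
  have h2 : w.ord (aeval (y / x) (sp (upP I))) = (Fintype.card F + 1) * w.ord s := by
    have := (ord_eq_of_ge_sub (p := w) (pow_ne_zero (Fintype.card F + 1) hs1) (hη.mono (by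
      rw [ord_pow]
      have : (0 : ℤ) < (Fintype.card F + 1 : ℕ) := by positivity
      nlinarith))).2
    rw [this, ord_pow]; push_cast; rfl
  have h3 : w.ord (y / x) < 0 := by
    by_contra h3
    have h4 := ge_aevalF (sp (upP I)) (ge_of_le (not_lt.1 h3))
    have h5 : (Fintype.card F + 1) * w.ord s < 0 := mul_neg_of_pos_of_neg (by positivity) hs0
    rw [ge_iff'] at h4
    rcases h4 with h4 | h4
    · rw [h4, ord_zero] at h2; omega
    · omega
  have h4 := ord_aeval_of_pole h3 (P := (sp (upP I)).map (algebraMap F k))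
    ((sp_monic _).map _).ne_zero
  rw [aeval_map_algebraMap, (sp_monic _).natDegree_map, sp_natDegree, h2] at h4
  have h5 : (Nat.card (upP I) : ℤ) ∣ w.ord s := by
    refine IsCoprime.dvd_of_dvd_mul_left (y := (Fintype.card F : ℤ) + 1) ?_ ⟨_, h4⟩
    rw [← hN.pi_mul]
    exact ⟨-Nat.card (img (upP I)), 1, by push_cast; ring⟩
  have h6 : Nat.card (upP I) * Nat.card (toR I) ∣ e := by
    refine hjc.symm.dvd_of_dvd_mul_right ?_
    obtain ⟨c, hc⟩ := h5
    zify
    exact ⟨-c, by rw [hc, ht] at o1; linear_combination o1⟩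
  have h7 := (Nat.le_of_dvd he h6).trans (le_card_stab hw)
  rw [← Subgroup.card_map_of_injective hinj, ← hD, card_eq_upP_mul hDb] at h7
  have h8 := AddSubgroup.card_le_of_le hu
  have h9 := Subgroup.card_le_of_le hT'
  have h10 := hN.m_pos
  have h11 := hN.two_le
  exact ⟨hDb, AddSubgroup.eq_of_le_of_card_ge hu (by nlinarith),
    Subgroup.eq_of_le_of_card_ge hT' (by nlinarith)⟩

theorem core_aux [IsAlgClosed k] (p : ℕ) [Fact p.Prime] [CharP F p] {x₀ : K} (hx₀ : IsCoord k x₀)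
    (hconst : ∀ z : K, (∀ v : Place k K, v.Ge 0 z) → ∃ c, z = algebraMap k K c)
    {I : Subgroup SL(2, F)} (hI : I ≤ bor F) (h3 : 3 ≤ Nat.card (upP I))
    (h9 : Fintype.card F = 9 → Nat.card (upP I) ≠ 3) {n₀ : ℕ} {r : ℕ → ℕ}
    (hN : Num F (Nat.card (upP I)) (Nat.card (img (upP I))) (Nat.card (toR I)) n₀
      (sp (img (upP I))) r) {t : K} {ξ : Place k K} {j : ℕ}
    (hj : ξ.ord t = -j) (hj0 : 0 < j) (hjc : j.Coprime (Nat.card (upP I) * Nat.card (toR I)))
    (hreg : ∀ v, v ≠ ξ → v.Ge 0 t) [IsScalarTower F k K]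
    (ha : a = aeval t (ap (n₀ * Nat.card (img (upP I))) (Nat.card (img (upP I)))
      (sp (img (upP I))) r)) [IsSplittingField K L (fp F a)] [FiniteDimensional K L]
    [IsGalois K L] : ∃ ρ : (L ≃ₐ[K] L) ≃* SL(2, F),
      (∀ (w : Place k L) v e, w.Over (IsScalarTower.toAlgHom k K L) v e → v ≠ ξ →
        stabilizer (L ≃ₐ[K] L) w = ⊥) ∧
      ∃ (w : Place k L) (e : ℕ), w.Over (IsScalarTower.toAlgHom k K L) ξ e ∧
        (stabilizer (L ≃ₐ[K] L) w).map ρ.toMonoidHom = I := by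
  have hres : ∀ (w : Place k L) z, w.Ge 0 z → ∃ c, w.At z c := fun w z hz =>
    ⟨_, (isCoord_ext hx₀).at_cen hz⟩
  have hareg : ∀ v, v ≠ ξ → v.Ge 0 a := fun v hv => ha ▸ ge_aevalF _ (hreg v hv)
  have haL := congrArg (algebraMap K L) ha
  rw [← aeval_algebraMap_apply] at haL
  obtain ⟨w, e, hw⟩ := exists_over L ξ
  have ht : w.ord (algebraMap K L t) < 0 := hw.pole_iff.2 (by omega)
  have hA := hN.ord_ap_neg ht
  obtain ⟨x, y, hx, hy, hW⟩ := exists_wr (F := F) (L := L) (a := a)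
  obtain ⟨x, y, hx, hy, hW, h1⟩ := exists_small (haL ▸ hA) hx hy hW
  obtain ⟨l, hl, hκ⟩ := hN.normalize (hres w) ht (haL ▸ hx) h1
  have hW' : Wr F (algebraMap F L l * x) (algebraMap F L l⁻¹ * y) = 1 := by
    have := wr_comb (x := x) (y := y) l 0 0 l⁻¹
    simpa [hl, hW] using this
  have h1' : 0 < w.ord (algebraMap F L l * x) := by
    rwa [w.ord_mul (by simpa using hl) (ne_zero_of_wr hW).1, ord_constF, zero_add]
  replace hx := hx.smul l
  replace hy := hy.smul l⁻¹
  generalize algebraMap F L l * x = x at *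
  generalize algebraMap F L l⁻¹ * y = y at *
  obtain ⟨ρ, hρ⟩ := exists_rep hx hy hW'
  have hinj : Function.Injective ρ := by
    rw [injective_iff_map_eq_one]
    intro σ hσ
    refine eq_one_of_rt (F := F) (a := a) σ fun z hz => ?_
    obtain ⟨c, d, rfl⟩ := hx.comb hy hW' hz
    rw [map_add, map_mul, map_mul, gal_const, gal_const, (hρ σ).1, (hρ σ).2, hσ]
    simp
  obtain ⟨hD, hu, hT⟩ := stab_parts p (hres w) hN hj hj0 hjc hw (haL ▸ hx) hW' h1' hκ ρ hinj hρ
  have hc := card_eq_mul ρ (fun σ => (hρ σ).1) hx hW' (haL ▸ hA) h1'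
    (ord_prod_gal hconst hareg hw hx (ne_zero_of_wr hW').1)
  have hle : Nat.card (upP I) ≤ Nat.card (upP ρ.range) := by
    rw [← hu]
    exact AddSubgroup.card_le_of_le fun b hb => Subgroup.map_le_range _ _ hb
  have htop : ρ.range = ⊤ := by
    refine dickson _ ?_ (by omega) fun h => by have := h9 h; omega
    rw [← Subgroup.map_comap_eq, Subgroup.card_map_of_injective hinj, ← hc,
      MonoidHom.range_eq_map, Subgroup.card_map_of_injective hinj, Subgroup.card_top]
  obtain ⟨s, hs⟩ := exists_conj hD hI hu hT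
  refine ⟨(MulEquiv.ofBijective ρ ⟨hinj, MonoidHom.range_eq_top.1 htop⟩).trans (MulAut.conj s),
    fun w' v e' hw' hv => stab_eq_bot (F := F) (a := a) (hres w')
      ((hw'.ge_zero_iff a).2 (hareg v hv)), w, e, hw, ?_⟩
  rw [← hs, Subgroup.map_map]
  rfl

end Pool.Agent.Lib.MP_ba4752_ag
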