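import Pool.Agent.Lib.MP_e06174_ag.Curve

/-! Function fields of one variable over an algebraically closed field of any characteristic. -/

set_option linter.unusedSectionVars false

open Polynomial IntermediateField IsDedekindDomain Module

namespace Pool.Agent.Lib.MP_ba4752_ag

open Pool.Agent.Lib.MP_e06174_ag Place

variable {k K : Type*} [Field k] [Field K] [Algebra k K]

/-- A separating coordinate. -/
structure SepCoord (k : Type*) [Field k] [Algebra k K] (x : K) : Prop extends IsCoord k x where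
  sep : Algebra.IsSeparable k⟮x⟯ K

lemma exists_sepCoord [PerfectField k] [Algebra.EssFiniteType k K] (h : Algebra.trdeg k K = 1) :
    ∃ x : K, SepCoord k x := by
  obtain ⟨s, hs, hsep⟩ := exists_isTranscendenceBasis_and_isSeparable_of_perfectField k K
  have h1 := hs.cardinalMk_eq_trdeg
  rw [h, Cardinal.mk_coe_finset, Nat.cast_eq_one, Finset.card_eq_one] at h1
  obtain ⟨x, rfl⟩ := h1
  rw [Finset.coe_singleton] at hsep
  have := Algebra.EssFiniteType.of_comp k k⟮x⟯ K
  exact ⟨x, ⟨hs.1.transcendental ⟨x, by simp⟩, Algebra.finite_of_essFiniteType_of_isAlgebraic⟩,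
    hsep⟩

lemma SepCoord.setup {x : K} (h : SepCoord k x) :
    ∃ (_ : Algebra k[X] K) (_ : Algebra (RatFunc k) K) (_ : IsScalarTower k k[X] K)
      (_ : IsScalarTower k[X] (RatFunc k) K) (_ : IsScalarTower k (RatFunc k) K)
      (_ : FiniteDimensional (RatFunc k) K) (_ : Algebra.IsSeparable (RatFunc k) K),
      x = algebraMap k[X] K X := by
  let i1 : Algebra k[X] K := (aeval x : k[X] →ₐ[k] K).toRingHom.toAlgebra
  let i2 : Algebra (RatFunc k) K := (ev h.trans).toRingHom.toAlgebra
  have := h.fin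
  have := h.sep
  refine ⟨i1, i2, .of_algebraMap_eq fun c => ((aeval x : k[X] →ₐ[k] K).commutes c).symm,
    .of_algebraMap_eq fun P => (ev_algebraMap h.trans P).symm,
    .of_algebraMap_eq fun c => ((ev h.trans).commutes c).symm, ?_, ?_, (aeval_X x).symm⟩
  · refine Module.Finite.of_equiv_equiv
      (RatFunc.algEquivOfTranscendental x h.trans).symm.toRingEquiv (RingEquiv.refl K) ?_
    ext y
    change ev h.trans _ = _
    simp [ev]
  · refine Algebra.IsSeparable.of_equiv_equiv
      (RatFunc.algEquivOfTranscendental x h.trans).symm.toRingEquiv (RingEquiv.refl K) ?_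
    ext y
    change ev h.trans _ = _
    simp [ev]

lemma SepCoord.of_adjoin_eq {x y : K} (h : SepCoord k x) (hxy : k⟮y⟯ = k⟮x⟯) : SepCoord k y := by
  have h1 : Transcendental k y := by
    intro hy
    have := adjoin.finiteDimensional hy.isIntegral
    rw [hxy] at this
    exact h.trans (isAlgebraic_iff.1 (Algebra.IsAlgebraic.isAlgebraic (AdjoinSimple.gen k x)))
  exact ⟨h.toIsCoord.of_transcendental h1, hxy ▸ h.sep⟩

lemma SepCoord.inv_sub {x : K} (h : SepCoord k x) (a : k) :
    SepCoord k (x - algebraMap k K a)⁻¹ := by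
  refine h.of_adjoin_eq (le_antisymm ?_ ?_) <;> rw [adjoin_simple_le_iff]
  · exact inv_mem (sub_mem (mem_adjoin_simple_self k x) (IntermediateField.algebraMap_mem _ a))
  · have := add_mem (inv_mem (mem_adjoin_simple_self k (x - algebraMap k K a)⁻¹))
      (IntermediateField.algebraMap_mem _ a)
    simpa using this

lemma SepCoord.ext {x : K} (h : SepCoord k x) (L : Type*) [Field L] [Algebra K L] [Algebra k L]
    [IsScalarTower k K L] [FiniteDimensional K L] [Algebra.IsSeparable K L] :
    SepCoord k (algebraMap K L x) := by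
  obtain ⟨_, _, _, _, _, _, _, rfl⟩ := h.setup
  let i1 : Algebra k[X] L := ((algebraMap K L).comp (algebraMap k[X] K)).toAlgebra
  let i2 : Algebra (RatFunc k) L := ((algebraMap K L).comp (algebraMap (RatFunc k) K)).toAlgebra
  have : IsScalarTower (RatFunc k) K L := .of_algebraMap_eq fun _ => rfl
  have : IsScalarTower k[X] (RatFunc k) L := .of_algebraMap_eq fun P =>
    congrArg (algebraMap K L) (IsScalarTower.algebraMap_apply k[X] (RatFunc k) K P)
  have : IsScalarTower k (RatFunc k) L := .of_algebraMap_eq fun c => by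
    rw [IsScalarTower.algebraMap_apply k K L, IsScalarTower.algebraMap_apply k (RatFunc k) K]; rfl
  have : FiniteDimensional (RatFunc k) L := Module.Finite.trans K L
  have : Algebra.IsSeparable (RatFunc k) L := Algebra.IsSeparable.trans _ K L
  have h1 := isCoord_setting (k := k) (F := L)
  refine ⟨h1, Algebra.IsSeparable.of_equiv_equiv
    (RatFunc.algEquivOfTranscendental _ h1.trans).toRingEquiv (RingEquiv.refl L) ?_⟩
  refine RingHom.ext fun r => ?_
  change ev h1.trans r = algebraMap (RatFunc k) L r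
  have : IsScalarTower k k[X] L := .of_algebraMap_eq fun c => by
    rw [IsScalarTower.algebraMap_apply k K L, IsScalarTower.algebraMap_apply k k[X] K]; rfl
  induction r using RatFunc.induction_on with
  | f p q hq =>
    rw [map_div₀, map_div₀, ev_algebraMap, ev_algebraMap, ← IsScalarTower.algebraMap_apply,
      ← IsScalarTower.algebraMap_apply, alg_eq_aeval p, alg_eq_aeval q]

lemma exists_place_of_dedekind {R : Type*} [CommRing R] [IsDedekindDomain R] [Algebra R K]
    [IsFractionRing R K] (hk : ∀ c : k, ∃ r : R, algebraMap R K r = algebraMap k K c)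
    (O : ValuationSubring K) (hO : O ≠ ⊤) (hB : ∀ r, algebraMap R K r ∈ O) :
    ∃ v : Place k K, v.O = O := by
  let φ : R →+* O := (algebraMap R K).codRestrict O.toSubring hB
  let P : Ideal R := (IsLocalRing.maximalIdeal O).comap φ
  have hP : ∀ s : R, s ∉ P → (algebraMap R K s)⁻¹ ∈ O := by
    intro s hs
    have : IsUnit (φ s) := by
      by_contra h
      exact hs ((IsLocalRing.mem_maximalIdeal _).2 h)
    obtain ⟨t, ht⟩ := isUnit_iff_exists_inv.1 this
    have : algebraMap R K s * t = 1 := congrArg Subtype.val ht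
    rw [← eq_inv_of_mul_eq_one_right this]; exact t.2
  have hP0 : P ≠ ⊥ := by
    intro h
    apply hO
    rw [eq_top_iff]
    intro z _
    obtain ⟨a, b, hb, rfl⟩ := IsFractionRing.div_surjective (A := R) z
    rw [div_eq_mul_inv]
    exact O.mul_mem _ _ (hB a) (hP b (by rw [h]; simpa using nonZeroDivisors.ne_zero hb))
  let w : HeightOneSpectrum R := ⟨P, Ideal.comap_isPrime _ _, hP0⟩
  refine ⟨ofPrime hk w, (w.valuationSubringAtPrime_eq_valuationSubring (K := K)).symm.trans
    (ValuationSubring.eq_of_le_of_ne_top _ ?_ hO)⟩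
  rintro z ⟨a, s, hs, rfl⟩
  exact O.mul_mem _ _ (hB a) (hP s hs)

lemma SepCoord.exists_place_aux {x : K} (h : SepCoord k x) (O : ValuationSubring K) (hO : O ≠ ⊤)
    (hk : ∀ c : k, algebraMap k K c ∈ O) (hx : x ∈ O) : ∃ v : Place k K, v.O = O := by
  obtain ⟨_, _, _, _, _, _, _, rfl⟩ := h.setup
  have := IsIntegralClosure.isDedekindDomain k[X] (RatFunc k) K (integralClosure k[X] K)
  have := integralClosure.isFractionRing_of_finite_extension (A := k[X]) (RatFunc k) K
  refine exists_place_of_dedekind (R := integralClosure k[X] K) (fun c => ⟨algebraMap k[X] _ (C c),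
    by rw [← IsScalarTower.algebraMap_apply, IsScalarTower.algebraMap_apply k k[X] K]; rfl⟩) O hO
    fun b => ?_
  have hR : ∀ P, algebraMap k[X] K P ∈ O := by
    intro P
    rw [alg_eq_aeval, aeval_eq_sum_range]
    refine sum_mem fun i _ => ?_
    rw [Algebra.smul_def]
    exact mul_mem (hk _) (pow_mem hx _)
  let _ : Algebra k[X] O := ((algebraMap k[X] K).codRestrict O.toSubring hR).toAlgebra
  have : IsScalarTower k[X] O K := IsScalarTower.of_algebraMap_eq fun _ => rfl
  have h1 : IsIntegral O (b : K) := b.2.tower_top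
  obtain ⟨y, hy⟩ := IsIntegrallyClosed.isIntegral_iff.1 h1
  change (b : K) ∈ O
  rw [← hy]; exact y.2

/-- Every proper valuation ring containing the constants is the ring of a place. -/
lemma SepCoord.exists_place {x : K} (h : SepCoord k x) (O : ValuationSubring K) (hO : O ≠ ⊤)
    (hk : ∀ c : k, algebraMap k K c ∈ O) : ∃ v : Place k K, v.O = O := by
  rcases O.mem_or_inv_mem x with hx | hx
  · exact h.exists_place_aux O hO hk hx
  · exact (h.inv_sub 0).exists_place_aux O hO hk (by simpa using hx)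

lemma SepCoord.const [IsAlgClosed k] {x : K} (h : SepCoord k x) (z : K)
    (hz : ∀ v : Place k K, v.Ge 0 z) : ∃ c, z = algebraMap k K c := by
  by_contra hne
  push Not at hne
  have h1 := transcendental_of_ne_const hne
  have h0 := ne_zero_of_transcendental h1
  have h2 : Transcendental k z⁻¹ := fun h => h1 (IsAlgebraic.inv_iff.1 h)
  let A : Subring K := (aeval z⁻¹ : k[X] →ₐ[k] K).toRingHom.range
  obtain ⟨B, hB, hB'⟩ := Ideal.image_subset_nonunits_valuationSubring (A := A)
    (Ideal.span {⟨z⁻¹, X, by simp⟩}) (by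
      rw [Ne, Ideal.span_singleton_eq_top, isUnit_iff_exists_inv]
      rintro ⟨⟨_, P, rfl⟩, hP⟩
      have h3 : z⁻¹ * aeval z⁻¹ P = 1 := congrArg Subtype.val hP
      refine aeval_ne_zero h2 (P := X * P - 1) (fun h4 => ?_) (by simp [h3])
      simpa using congrArg (eval 0) h4)
  have h3 : z⁻¹ ∈ B.nonunits := hB' ⟨_, Ideal.mem_span_singleton_self _, rfl⟩
  have h4 : z ∉ B := by
    rw [ValuationSubring.mem_nonunits_iff_or] at h3
    simpa [h0] using h3
  obtain ⟨v, rfl⟩ := h.exists_place B (fun h5 => h4 (h5 ▸ trivial))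
    fun c => hB ⟨C c, by simp⟩
  exact h4 (mem_O.2 (hz v))

/-- Functions vanishing to order at least `n`. -/
def fil (p : Place k K) (n : ℤ) : Submodule k K where
  carrier := {y | p.Ge n y}
  zero_mem' := ge_zero n
  add_mem' := Ge.add
  smul_mem' := fun c _ h => Ge.smul h c

variable [IsAlgClosed k] {x : K}

lemma finrank_le_succ (h : IsCoord k x) (p : Place k K) (n : ℤ) (V : Submodule k K)
    [FiniteDimensional k V] (hV : V ≤ fil p n) :
    finrank k V ≤ finrank k ↥(V ⊓ fil p (n + 1)) + 1 := by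
  by_cases h1 : V ≤ fil p (n + 1)
  · rw [inf_eq_left.2 h1]; omega
  obtain ⟨u, hu, hu'⟩ := SetLike.not_le_iff_exists.1 h1
  have h2 := not_ge_iff.1 hu'
  have h3 : p.ord u = n := by have := Ge.le (hV hu) h2.1; omega
  have h4 : V ≤ V ⊓ fil p (n + 1) ⊔ k ∙ u := by
    intro y hy
    have h5 := h.at_cen (p := p) (y := y * u⁻¹)
      (Ge.mul' (hV hy) (ge_of_le (n := -n) (by simp [h3])) (by simp))
    have h6 := Ge.mul' h5 (ge_of_le h3.ge) (l := n + 1) (by omega)
    rw [sub_mul, inv_mul_cancel_right₀ h2.1, ← Algebra.smul_def] at h6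
    rw [← sub_add_cancel y (p.cen (y * u⁻¹) • u)]
    exact Submodule.add_mem_sup ⟨sub_mem hy (V.smul_mem _ hu), h6⟩
      (Submodule.smul_mem _ _ (Submodule.mem_span_singleton_self u))
  have h5 := Submodule.finrank_mono h4
  have h6 := Submodule.finrank_sup_add_finrank_inf_eq (V ⊓ fil p (n + 1)) (k ∙ u)
  rw [finrank_span_singleton h2.1] at h6
  omega

lemma finrank_le_add (h : IsCoord k x) (p : Place k K) (n : ℕ) (V : Submodule k K)
    [FiniteDimensional k V] (hV : V ≤ fil p (-n)) : finrank k V ≤ finrank k ↥(V ⊓ fil p 0) + n := by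
  induction n generalizing V with
  | zero => rw [inf_eq_left.2 (by simpa using hV)]; omega
  | succ n ih =>
    have h1 := finrank_le_succ h p _ V hV
    have h2 := ih (V ⊓ fil p (-(n + 1 : ℕ) + 1)) (by simp)
    have h3 : V ⊓ fil p (-(n + 1 : ℕ) + 1) ⊓ fil p 0 ≤ V ⊓ fil p 0 :=
      inf_le_inf_right _ inf_le_left
    have := Submodule.finrank_mono h3
    omega

lemma finrank_le_sum (h : IsCoord k x) (T : Finset (Place k K)) (n : Place k K → ℕ)
    (V : Submodule k K) [FiniteDimensional k V] (hV : ∀ p ∈ T, V ≤ fil p (-n p)) :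
    ∃ W ≤ V, (∀ p ∈ T, W ≤ fil p 0) ∧ finrank k V ≤ finrank k W + ∑ p ∈ T, n p := by
  classical
  induction T using Finset.induction_on with
  | empty => exact ⟨V, le_rfl, by simp, by simp⟩
  | insert p T hp ih =>
    obtain ⟨W, h1, h2, h3⟩ := ih fun q hq => hV q (Finset.mem_insert_of_mem hq)
    have := Submodule.finiteDimensional_of_le h1
    have h4 := finrank_le_add h p (n p) W (h1.trans (hV p (Finset.mem_insert_self _ _)))
    refine ⟨W ⊓ fil p 0, inf_le_left.trans h1, fun q hq => ?_, by rw [Finset.sum_insert hp]; omega⟩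
    rcases Finset.mem_insert.1 hq with rfl | hq
    · exact inf_le_right
    · exact inf_le_left.trans (h2 q hq)

omit [IsAlgClosed k] in
lemma exists_multiple (h : IsCoord k x) (y : K) :
    ∃ q : k[X], q ≠ 0 ∧ ∀ p : Place k K, p.Ge 0 x → p.Ge 0 (aeval x q * y) := by
  obtain ⟨_, _, _, _, _, _, rfl, -⟩ := h.setup
  have h1 : IsAlgebraic k[X] y := (IsFractionRing.isAlgebraic_iff k[X] (RatFunc k) K).2
    (Algebra.IsAlgebraic.isAlgebraic y)
  obtain ⟨q, hq, h2⟩ := h1.exists_integral_multiple
  refine ⟨q, hq, fun p hp => ge_zero_of_isIntegral p (R := k[X]) (fun P => ?_) ?_⟩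
  · rw [alg_eq_aeval]; exact hp.aeval P
  · rwa [← alg_eq_aeval, ← Algebra.smul_def]

lemma SepCoord.exists_nonconst_aux (h : SepCoord k x) {ξ : Place k K} (hξ : ξ.ord x < 0) :
    ∃ f : K, Transcendental k f ∧ ∀ v, v ≠ ξ → v.Ge 0 f := by
  classical
  have hc := h.toIsCoord
  obtain ⟨_, _, _, _, _, _, _, rfl⟩ := h.setup
  set x := algebraMap k[X] K X with hx
  have hx0 := ne_zero_of_transcendental hc.trans
  let b := Module.finBasis (RatFunc k) K
  choose q hq hq' using fun i => exists_multiple hc (b i)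
  have h1 : LinearIndependent k[X] fun i => aeval x (q i) * b i := by
    refine LinearIndependent.restrict_scalars (K := RatFunc k) ?_ ?_
    · simpa [← Algebra.algebraMap_eq_smul_one] using IsFractionRing.injective k[X] (RatFunc k)
    · have := b.linearIndependent.units_smul fun i => Units.mk0
        (algebraMap k[X] (RatFunc k) (q i)) (by simpa using hq i)
      convert this using 2 with i
      simp [Units.smul_def, ← alg_eq_aeval, x, Algebra.smul_def, ← IsScalarTower.algebraMap_apply]
  have hT : {p : Place k K | p.ord x < 0}.Finite :=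
    (finite_over K vInf).subset fun w hw => (over_of_pole hw).imp fun e he => he.1
  have hsum : ∑ p ∈ hT.toFinset, (p.ord x).natAbs ≤ finrank (RatFunc k) K := by
    refine sum_ram_le vInf _ _ fun w hw => ?_
    obtain ⟨e, he, he'⟩ := over_of_pole (hT.mem_toFinset.1 hw)
    rwa [he', Int.natAbs_neg, Int.natAbs_natCast]
  let c : Place k K → ℕ := fun p => ∑ i, (p.ord (aeval x (q i) * b i)).natAbs
  let M := ∑ p ∈ hT.toFinset.erase ξ, c p + 2
  have h2 := linearIndependent_smul
    ((basisMonomials k).linearIndependent.comp (fun j : Fin M => (j : ℕ)) Fin.val_injective) h1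
  let V := Submodule.span k (Set.range fun s : Fin M × Fin (finrank (RatFunc k) K) =>
    (basisMonomials k ∘ fun j : Fin M => (j : ℕ)) s.1 • (aeval x (q s.2) * b s.2))
  have : FiniteDimensional k V := FiniteDimensional.span_of_finite k (Set.finite_range _)
  have h3 : finrank k V = M * finrank (RatFunc k) K := (finrank_span_eq_card h2).trans (by simp)
  have h4 : ∀ (p : Place k K) (n : ℤ), (∀ j < M, ∀ i, p.Ge n (x ^ j * (aeval x (q i) * b i))) →
      V ≤ fil p n := by
    intro p n hn
    refine Submodule.span_le.2 ?_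
    rintro _ ⟨s, rfl⟩
    convert hn s.1 s.1.2 s.2
    simp [Algebra.smul_def, ← X_pow_eq_monomial, fil, x]
  obtain ⟨W, hW, hW', hd⟩ := finrank_le_sum hc (hT.toFinset.erase ξ)
    (fun p => M * (p.ord x).natAbs + c p) V fun p hp => h4 p _ fun j hj i => by
      have h5 : p.ord x < 0 := hT.mem_toFinset.1 (Finset.mem_of_mem_erase hp)
      refine (ge_ord _).mul' (ge_ord _) ?_
      have h6 : (p.ord (aeval x (q i) * b i)).natAbs ≤ c p :=
        Finset.single_le_sum (f := fun i => (p.ord (aeval x (q i) * b i)).natAbs)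
          (fun _ _ => Nat.zero_le _) (Finset.mem_univ i)
      have h7 : (j : ℤ) ≤ M := by omega
      rw [ord_pow]
      push_cast
      rw [abs_of_neg h5]
      nlinarith [neg_abs_le (p.ord (aeval x (q i) * b i)), Int.natCast_natAbs
        (p.ord (aeval x (q i) * b i)), (Int.ofNat_le.2 h6)]
  have h5 : 2 ≤ finrank k W := by
    rw [← Finset.add_sum_erase _ _ (hT.mem_toFinset.2 hξ)] at hsum
    rw [Finset.sum_add_distrib, ← Finset.mul_sum, h3] at hd
    have h6 : 1 ≤ (ξ.ord x).natAbs := by omega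
    have h7 : M = ∑ p ∈ hT.toFinset.erase ξ, c p + 2 := rfl
    nlinarith
  obtain ⟨f, hf, hf'⟩ : ∃ f ∈ W, f ∉ k ∙ (1 : K) := by
    by_contra hne
    push Not at hne
    have := Submodule.finrank_mono (show W ≤ k ∙ (1 : K) from hne)
    rw [finrank_span_singleton one_ne_zero] at this
    omega
  refine ⟨f, transcendental_of_ne_const fun a ha => hf' ?_, fun v hv => ?_⟩
  · rw [ha, Algebra.algebraMap_eq_smul_one]
    exact Submodule.smul_mem _ _ (Submodule.mem_span_singleton_self _)
  · by_cases h6 : v.ord x < 0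
    · exact hW' v (Finset.mem_erase.2 ⟨hv, hT.mem_toFinset.2 h6⟩) hf
    · have h7 : v.Ge 0 x := ge_of_le (by omega)
      exact h4 v 0 (fun j _ i => (h7.pow j).mul' (hq' i v h7) (by simp)) (hW hf)

/-- A function with a single pole, of order prime to a given number. -/
lemma SepCoord.exists_single_pole (h : SepCoord k x) (ξ : Place k K) {n : ℕ} (hn : 0 < n) :
    ∃ (t : K) (j : ℕ), ξ.ord t = -j ∧ 0 < j ∧ j.Coprime n ∧ ∀ v, v ≠ ξ → v.Ge 0 t := by
  obtain ⟨f, hf, hf'⟩ : ∃ f : K, Transcendental k f ∧ ∀ v, v ≠ ξ → v.Ge 0 f := by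
    rcases h.toIsCoord.pole_or_at ξ with h1 | ⟨a, ha⟩
    · exact h.exists_nonconst_aux h1
    · exact (h.inv_sub a).exists_nonconst_aux (by
        have := ha.ord_pos h.trans
        rw [ord_inv]; omega)
  obtain ⟨u, hu0, hu⟩ := ξ.exists_ord_eq (-1)
  obtain ⟨q, hq, hq'⟩ := exists_multiple (h.toIsCoord.of_transcendental hf) u
  have ha0 := aeval_ne_zero hf hq
  have ha : ∀ v : Place k K, v ≠ ξ → v.Ge 0 (aeval f q) := fun v hv => (hf' v hv).aeval q
  obtain ⟨α, hα⟩ : ∃ α : ℕ, ξ.ord (aeval f q) = -α := by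
    by_cases h1 : ξ.ord (aeval f q) ≤ 0
    · exact ⟨(ξ.ord (aeval f q)).natAbs, by omega⟩
    · obtain ⟨c, hc⟩ := h.const (aeval f q) fun v => by
        by_cases hv : v = ξ
        · exact hv ▸ ge_of_le (by omega)
        · exact ha v hv
      exact ⟨0, by rw [hc]; simp⟩
  obtain ⟨n, rfl⟩ : ∃ m, n = m + 1 := ⟨n - 1, by omega⟩
  refine ⟨aeval f q ^ n * (aeval f q * u), α * (n + 1) + 1, ?_, by omega, by simp, fun v hv => ?_⟩
  · rw [ξ.ord_mul (pow_ne_zero _ ha0) (mul_ne_zero ha0 hu0), ξ.ord_mul ha0 hu0, ord_pow, hα, hu]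
    push_cast; ring
  · exact ((ha v hv).pow n).mul' (hq' v (hf' v hv)) (by simp)

end Pool.Agent.Lib.MP_ba4752_ag
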