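import Pool.Agent.Lib.MP_ba4752_ag.Newton

/-! The local analysis at the pole. -/

set_option linter.unusedSectionVars false

open Polynomial Finset

namespace Pool.Agent.Lib.MP_ba4752_ag

open Pool.Agent.Lib.MP_e06174_ag Place

/-- Numerical data attached to a subgroup of the Borel subgroup. -/
structure Num (F : Type*) [Field F] [Fintype F] (π N m n₀ : ℕ) (f : F[X]) (r : ℕ → ℕ) : Prop where
  pi_mul : π * N = Fintype.card F
  m_mul : m * n₀ + 1 = Fintype.card F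
  two_le : 2 ≤ π
  monic : f.Monic
  deg : f.natDegree = N
  hr : ∀ i < N, f.coeff i ≠ 0 →
    2 * i ≤ N ∧ m * r i = (Fintype.card F + 1) * (N - i) ∧ r i ≤ n₀ * N

/-- The coefficient of the companion polynomial. -/
noncomputable def ap {F : Type*} [Field F] (n N : ℕ) (f : F[X]) (r : ℕ → ℕ) : F[X] :=
  X ^ n - ∑ i ∈ range N, C (f.coeff i) * X ^ (n - r i)

variable {k F L : Type*} [Field k] [Field F] [Fintype F] [Field L] [Algebra F L] [Algebra k L]
  [Algebra F k] [IsScalarTower F k L] {w : Place k L} {t x y : L}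
  {π N m n₀ : ℕ} {f : F[X]} {r : ℕ → ℕ}

/-- The lower order terms. -/
noncomputable def dz (N : ℕ) (f : F[X]) (r : ℕ → ℕ) (t : L) : L :=
  ∑ i ∈ range N, algebraMap F L (f.coeff i) * t⁻¹ ^ r i

namespace Num

variable (h : Num F π N m n₀ f r)
include h

lemma N_pos : 0 < N := Nat.pos_of_ne_zero fun h0 => by
  have := h.pi_mul
  rw [h0, mul_zero] at this
  exact Fintype.card_ne_zero this.symm

lemma mn_pos : 0 < m * n₀ := by
  have := h.m_mul
  have := Fintype.one_lt_card (α := F)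
  omega

lemma m_pos : 0 < m := Nat.pos_of_mul_pos_right h.mn_pos

lemma n_pos : 0 < n₀ := Nat.pos_of_mul_pos_left h.mn_pos

lemma aeval_ap (ht : t ≠ 0) :
    aeval t (ap (n₀ * N) N f r) = t ^ (n₀ * N) * (1 - dz N f r t) := by
  simp only [ap, dz, map_sub, map_pow, aeval_X, map_sum, map_mul, aeval_C, mul_sub, mul_one,
    mul_sum]
  congr 1
  refine sum_congr rfl fun i hi => ?_
  by_cases hc : f.coeff i = 0
  · simp [hc]
  · obtain ⟨c, hc⟩ := Nat.exists_eq_add_of_le (h.hr i (mem_range.1 hi) hc).2.2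
    rw [hc, Nat.add_sub_cancel_left, inv_pow, pow_add]
    field_simp

lemma dz_ge {μ : ℤ} (hμ : ∀ i < N, f.coeff i ≠ 0 → μ ≤ r i * -w.ord t) : w.Ge μ (dz N f r t) := by
  refine Ge.sum fun i hi => ?_
  by_cases hc : f.coeff i = 0
  · simp [hc]
  · exact (ge_constF _).mul' (ge_pow_of_le (by simpa using hμ i (mem_range.1 hi) hc)) (by simp)

lemma dz_ge_one (ht : w.ord t < 0) : w.Ge 1 (dz N f r t) := by
  refine h.dz_ge fun i hi hc => ?_
  have h1 := (h.hr i hi hc).2.1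
  have h2 : r i ≠ 0 := by
    intro h0
    rw [h0, mul_zero, eq_comm, mul_eq_zero] at h1
    omega
  have : (1 : ℤ) ≤ r i := by omega
  nlinarith

lemma ord_ap (ht : w.ord t < 0) : w.ord (aeval t (ap (n₀ * N) N f r)) = n₀ * N * w.ord t := by
  have h0 : t ≠ 0 := by rintro rfl; simp at ht
  have h1 := ord_add_of_ge (p := w) one_ne_zero (y := - dz N f r t)
    (by simpa using (h.dz_ge_one ht).neg)
  rw [← sub_eq_add_neg] at h1
  rw [h.aeval_ap h0, w.ord_mul (pow_ne_zero _ h0) h1.1, h1.2]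
  simp

lemma ord_ap_neg (ht : w.ord t < 0) : w.ord (aeval t (ap (n₀ * N) N f r)) < 0 := by
  rw [h.ord_ap ht]
  have h1 : (0 : ℤ) < n₀ := by exact_mod_cast h.n_pos
  have h2 : (0 : ℤ) < N := by exact_mod_cast h.N_pos
  nlinarith [mul_pos h1 h2]

lemma rho_eq (ht : t ≠ 0) (hx : IsRt F (aeval t (ap (n₀ * N) N f r)) x) (h0 : x ≠ 0) :
    (x⁻¹ ^ m / t ^ N) ^ n₀ =
      1 - (dz N f r t + x ^ (Fintype.card F * (m * n₀)) / t ^ (n₀ * N)) := by
  rw [IsRt, h.aeval_ap ht, ← pow_mul] at hx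
  have h1 : x ^ (Fintype.card F * Fintype.card F) =
      x ^ (Fintype.card F * (m * n₀)) * (x ^ (m * n₀) * x) := by
    rw [← pow_succ, ← pow_add, h.m_mul, ← mul_add_one, h.m_mul]
  have h2 : x ^ Fintype.card F = x ^ (m * n₀) * x := by rw [← pow_succ, h.m_mul]
  rw [h1, h2] at hx
  rw [div_pow, ← pow_mul, ← pow_mul, inv_pow, mul_comm N]
  field_simp
  refine mul_right_cancel₀ h0 ?_
  linear_combination hx

lemma ord_small (ht : w.ord t < 0) (hx : IsRt F (aeval t (ap (n₀ * N) N f r)) x)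
    (h1 : 0 < w.ord x) : m * w.ord x = N * -w.ord t := by
  have h2 := hx.small (h.ord_ap_neg ht) h1
  rw [h.ord_ap ht, ← h.m_mul] at h2
  have h3 : (0 : ℤ) < n₀ := by exact_mod_cast h.n_pos
  refine mul_left_cancel₀ h3.ne' ?_
  push_cast at h2
  linear_combination h2

lemma rho_ge_one (ht : w.ord t < 0) (hx : IsRt F (aeval t (ap (n₀ * N) N f r)) x)
    (h1 : 0 < w.ord x) : w.Ge 1 ((x⁻¹ ^ m / t ^ N) ^ n₀ - 1) := by
  have h0 : t ≠ 0 := by rintro rfl; simp at ht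
  have hx0 : x ≠ 0 := by rintro rfl; simp at h1
  rw [h.rho_eq h0 hx hx0, sub_sub_cancel_left]
  refine ((h.dz_ge_one ht).add (ge_of_le ?_)).neg
  rw [w.ord_div (pow_ne_zero _ hx0) (pow_ne_zero _ h0), ord_pow, ord_pow]
  have h3 : (0 : ℤ) < (n₀ * N : ℕ) := by exact_mod_cast Nat.mul_pos h.n_pos h.N_pos
  have h4 : (0 : ℤ) ≤ (Fintype.card F * (m * n₀) : ℕ) := by positivity
  nlinarith

lemma normalize [IsAlgClosed k] (hres : ∀ z, w.Ge 0 z → ∃ c, w.At z c) (ht : w.ord t < 0)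
    (hx : IsRt F (aeval t (ap (n₀ * N) N f r)) x) (h1 : 0 < w.ord x) :
    ∃ l : F, l ≠ 0 ∧ w.Ge 1 ((algebraMap F L l * x)⁻¹ ^ m / t ^ N - 1) := by
  have h0 : t ≠ 0 := by rintro rfl; simp at ht
  have hx0 : x ≠ 0 := by rintro rfl; simp at h1
  have h2 := h.rho_ge_one ht hx h1
  obtain ⟨c, hc⟩ := hres (x⁻¹ ^ m / t ^ N) (ge_of_le (by
    rw [w.ord_div (by simp [hx0]) (pow_ne_zero _ h0), ord_pow, ord_pow, ord_inv]
    linarith [h.ord_small ht hx h1]))
  have h3 : c ^ n₀ = 1 := by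
    have h4 := hc.aeval (X ^ n₀)
    simp only [map_pow, aeval_X, eval_pow, eval_X] at h4
    exact h4.unique (by simpa [At] using h2)
  obtain ⟨l, hl⟩ := IsAlgClosed.exists_pow_nat_eq c h.m_pos
  obtain ⟨l, rfl⟩ := exists_of_pow_card (F := F) (z := l) (by
    rw [← h.m_mul, pow_succ, pow_mul, hl, h3, one_mul])
  have hc0 : c ≠ 0 := by
    rintro rfl
    simp [h.n_pos.ne'] at h3
  have hl0 : l ≠ 0 := by
    rintro rfl
    simp [h.m_pos.ne', hc0.symm] at hl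
  refine ⟨l, hl0, ?_⟩
  have h4 := Ge.smul hc c⁻¹
  convert h4 using 1
  have h5 : algebraMap F L l ^ m = algebraMap k L c := by
    rw [← hl, map_pow, ← IsScalarTower.algebraMap_apply]
  have h6 : algebraMap k L c ≠ 0 := by simpa using hc0
  rw [mul_inv, mul_pow, inv_pow, h5, Algebra.smul_def, map_inv₀]
  field_simp

lemma estimate (hfr : ∀ z : L, (z - 1) ^ π = z ^ π - 1) (ht : w.ord t < 0)
    (hx : IsRt F (aeval t (ap (n₀ * N) N f r)) x) (h1 : 0 < w.ord x)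
    (hκ : w.Ge 1 (x⁻¹ ^ m / t ^ N - 1)) :
    m * w.ord (x⁻¹ ^ π / t ^ n₀) = w.ord t ∧
      w.Ge 0 (x⁻¹ ^ (Fintype.card F + 1) -
        aeval ((x⁻¹ ^ π / t ^ n₀) ^ (Fintype.card F + 1)) f) := by
  have h0 : t ≠ 0 := by rintro rfl; simp at ht
  have hx0 : x ≠ 0 := by rintro rfl; simp at h1
  have hq : (2 : ℤ) ≤ Fintype.card F := by exact_mod_cast Fintype.one_lt_card (α := F)
  have e1 : (π : ℤ) * N = Fintype.card F := by exact_mod_cast h.pi_mul
  have e2 : (m : ℤ) * n₀ + 1 = Fintype.card F := by exact_mod_cast h.m_mul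
  have e3 := h.ord_small ht hx h1
  have hπ : (2 : ℤ) ≤ π := by exact_mod_cast h.two_le
  have hm : (0 : ℤ) < m := by exact_mod_cast h.m_pos
  have hN : (0 : ℤ) < N := by exact_mod_cast h.N_pos
  have hρ := h.rho_eq h0 hx hx0
  set κ := x⁻¹ ^ m / t ^ N with hκd
  set s := x⁻¹ ^ π / t ^ n₀ with hsd
  set q := Fintype.card F with hqd
  have hs0 : s ≠ 0 := by simp [hsd, hx0, h0]
  have hκ0 : κ ≠ 0 := by simp [hκd, hx0, h0]
  have hsm : s ^ m = t * κ ^ π := by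
    have : t ^ (N * π) = t ^ (n₀ * m) * t := by
      rw [← pow_succ, mul_comm n₀, h.m_mul, mul_comm N, h.pi_mul]
    rw [hsd, hκd, div_pow, div_pow, ← pow_mul, ← pow_mul, ← pow_mul, ← pow_mul, this, mul_comm m]
    field_simp
  have hsN : s ^ N = x⁻¹ * κ ^ n₀ := by
    rw [hsd, hκd, div_pow, div_pow, ← pow_mul, ← pow_mul, ← pow_mul, ← pow_mul, h.pi_mul,
      ← h.m_mul, pow_succ, mul_comm N]
    ring
  have hκo : w.ord κ = 0 := (ord_eq_zero_of_ge_sub_const (c := 1) one_ne_zero (by simpa using hκ)).2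
  have o1 : m * w.ord s = w.ord t := by
    have := congrArg w.ord hsm
    rwa [w.ord_mul h0 (pow_ne_zero _ hκ0), ord_pow, ord_pow, hκo, mul_zero, add_zero] at this
  have o2 : N * w.ord s = - w.ord x := by
    have := congrArg w.ord hsN
    rwa [w.ord_mul (inv_ne_zero hx0) (pow_ne_zero _ hκ0), ord_pow, ord_pow, hκo, mul_zero,
      add_zero, ord_inv] at this
  refine ⟨o1, ?_⟩
  obtain ⟨M, hM⟩ : ∃ M : ℤ, M = (q + 1) * -w.ord s := ⟨_, rfl⟩
  have hs : w.ord s < 0 := by nlinarith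
  have hM0 : 0 < M := by rw [hM]; exact mul_pos (by omega) (by omega)
  have hNM : 0 < N * M := mul_pos hN hM0
  obtain ⟨μ, hμ1, hμ2⟩ : ∃ μ : ℤ, N * M ≤ 2 * μ ∧ 2 * μ ≤ N * M + 1 := ⟨(N * M + 1) / 2, by omega⟩
  have hri : ∀ i < N, f.coeff i ≠ 0 → r i * -w.ord t = (N - i) * M := by
    intro i hi hc
    have h2 : (m : ℤ) * r i = (q + 1) * (N - i) := by
      have := (h.hr i hi hc).2.1
      zify [hi.le] at this
      exact this
    rw [← o1, hM]
    linear_combination (-w.ord s) * h2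
  have hδ0 : w.Ge μ (dz N f r t) := h.dz_ge fun i hi hc => by
    rw [hri i hi hc]
    have : (2 : ℤ) * i ≤ N := by exact_mod_cast (h.hr i hi hc).1
    have : N * M ≤ 2 * ((N - i) * M) := by nlinarith
    omega
  have hδ1 : w.Ge (N * M) (x ^ (q * (m * n₀)) / t ^ (n₀ * N)) := by
    refine ge_of_le ?_
    rw [w.ord_div (pow_ne_zero _ hx0) (pow_ne_zero _ h0), ord_pow, ord_pow, ← o1]
    push_cast
    have : w.ord x = -(N * w.ord s) := by rw [o2, neg_neg]
    rw [this]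
    have h5 : (q : ℤ) * (m * n₀) * -(N * w.ord s) - n₀ * N * (m * w.ord s) = (m * n₀) * (N * M) := by
      rw [hM]; ring
    rw [h5]
    nlinarith
  set δ₀ := dz N f r t
  set δ₁ := x ^ (q * (m * n₀)) / t ^ (n₀ * N)
  set ρ := κ ^ n₀ with hρd
  have hδ : w.Ge μ (δ₀ + δ₁) := hδ0.add (hδ1.mono (by omega))
  have hρ0 : ρ ≠ 0 := pow_ne_zero _ hκ0
  have hρi : w.Ge 0 ρ⁻¹ := ge_of_le (by simp [hρd, hκo])
  have hn₀ : (n₀ : k) ≠ 0 := by
    intro hn
    have h5 : ((m * n₀ + 1 : ℕ) : k) = 0 := by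
      rw [h.m_mul, ← map_natCast (algebraMap F k), FiniteField.cast_card_eq_zero, map_zero]
    simp [hn] at h5
  have hκμ : w.Ge μ (κ - 1) := ge_sub_one_of_pow hn₀ hκ (by
    rw [← hρd, hρ, sub_sub_cancel_left]; exact hδ.neg)
  have hκπ : w.Ge (N * M) (κ ^ π - 1) := by
    rw [← hfr]
    exact (hκμ.pow π).mono (by nlinarith)
  have hinv : ρ⁻¹ - 1 = (δ₀ + δ₁) * ρ⁻¹ := by
    field_simp
    linear_combination -hρ
  have hA : w.Ge (N * M) (ρ⁻¹ ^ (q + 1) - 1 - δ₀) := by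
    have h5 : ρ⁻¹ ^ (q + 1) - 1 - δ₀ =
        ρ⁻¹ * (ρ⁻¹ - 1) ^ q + (δ₀ + δ₁) * (ρ⁻¹ - 1) + δ₁ := by
      rw [hqd, sub_pow_card F, one_pow]
      linear_combination hinv
    have h6 : w.Ge μ (ρ⁻¹ - 1) := by rw [hinv]; exact hδ.mul' hρi (by simp)
    rw [h5]
    exact ((hρi.mul' (h6.pow q) (by nlinarith)).add (hδ.mul' h6 (by omega))).add hδ1
  set S := s ^ (q + 1) with hS
  have hSo : w.ord S = -M := by rw [hS, ord_pow, hM]; push_cast; ring
  have h5 : x⁻¹ ^ (q + 1) = S ^ N * ρ⁻¹ ^ (q + 1) := by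
    rw [hS, ← pow_mul, mul_comm (q + 1), pow_mul, hsN, ← mul_pow, mul_inv_cancel_right₀ hρ0]
  have h6 : aeval S f = S ^ N + ∑ i ∈ range N, algebraMap F L (f.coeff i) * S ^ i := by
    rw [aeval_eq_sum_range, h.deg, sum_range_succ, add_comm, ← h.deg, h.monic.coeff_natDegree]
    simp [Algebra.smul_def]
  have h7 : x⁻¹ ^ (q + 1) - aeval S f = S ^ N * (ρ⁻¹ ^ (q + 1) - 1 - δ₀) +
      ∑ i ∈ range N, algebraMap F L (f.coeff i) * (S ^ N * t⁻¹ ^ r i - S ^ i) := by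
    rw [h5, h6]
    simp only [δ₀, dz, mul_sub, sum_sub_distrib, mul_sum, mul_left_comm (S ^ N)]
    ring
  rw [h7]
  refine ((ge_pow_of_le (n := -(N * M)) (by rw [hSo]; simp)).mul' hA (by simp)).add
    (Ge.sum fun i hi => ?_)
  by_cases hc : f.coeff i = 0
  · simp [hc]
  have hi' := mem_range.1 hi
  have h8 : S ^ N * t⁻¹ ^ r i - S ^ i = S ^ i * ((κ ^ π) ^ r i - 1) := by
    have : S ^ N = S ^ i * (t * κ ^ π) ^ r i := by
      rw [← hsm, ← pow_mul s m, (h.hr i hi' hc).2.1, pow_mul s, ← hS, ← pow_add,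
        Nat.add_sub_cancel' hi'.le]
    rw [this, mul_pow, inv_pow]
    field_simp
  rw [h8]
  refine (ge_constF _).mul' ((ge_pow_of_le (n := -(N * M)) ?_).mul
    (ge_pow_sub_one hNM.le hκπ _)) (by simp)
  rw [hSo]
  have : (i : ℤ) ≤ N := by exact_mod_cast hi'.le
  nlinarith

end Num

end Pool.Agent.Lib.MP_ba4752_ag
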