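import Pool.Agent.Lib.MP_ba4752_ag.Borel

/-! Subgroups with a nontrivial normal `p`-subgroup lie in a Borel subgroup. -/

open scoped MatrixGroups
open OnePoint

namespace Pool.Agent.Lib.MP_ba4752_ag

variable {F : Type*} [Field F] [Fintype F]

lemma tr_pow_card (z : SL(2, F)) (j : ℕ) :
    (z ^ Fintype.card F ^ j) 0 0 + (z ^ Fintype.card F ^ j) 1 1 = z 0 0 + z 1 1 := by
  induction j with
  | zero => simp
  | succ j ih =>
    have := FiniteField.trace_pow_card (z ^ Fintype.card F ^ j).1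
    rw [Matrix.trace_fin_two, Matrix.trace_fin_two, FiniteField.pow_card, ih] at this
    rw [pow_succ, pow_mul]
    exact this

omit [Fintype F] in
lemma Cen.sq {g : SL(2, F)} (hg : Cen g) : g 0 0 ^ 2 = 1 := by
  have := bor_mul hg.2.1
  rw [← hg.2.2] at this
  linear_combination this

lemma par_of_pow (p : ℕ) [Fact p.Prime] [CharP F p] {z : SL(2, F)} {j : ℕ}
    (h : Cen (z ^ p ^ j)) : Par z := by
  obtain ⟨r, -, hr⟩ := FiniteField.card F p
  have h1 : p ^ j ∣ Fintype.card F ^ j := pow_dvd_pow_of_dvd (hr ▸ dvd_pow_self p r.ne_zero) j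
  obtain ⟨c, hc⟩ := h1
  have h2 : Cen (z ^ Fintype.card F ^ j) := by
    rw [hc, pow_mul]
    exact pow_mem (show z ^ p ^ j ∈ cenS F from h) c
  rw [Par, ← tr_pow_card z j, ← h2.2.2]
  linear_combination 4 * h2.sq

lemma exists_conj_infty {z : SL(2, F)} (h1 : ¬ Cen z) (h2 : Par z) :
    ∃ γ : SL(2, F), ∀ g : SL(2, F), (∃ c, Cen c ∧ z * (g * z * g⁻¹) * z⁻¹ = c * (g * z * g⁻¹)) →
      γ * g * γ⁻¹ ∈ bor F := by
  classical
  let k := AlgebraicClosure F
  let Fr : k →+* k := (FiniteField.frobeniusAlgHom F k).toRingHom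
  obtain ⟨x, y, h3, h4⟩ := fix_card (k := k) h1
  obtain rfl := h4.1 h2
  simp only [or_self] at h3
  have h5 : OnePoint.map Fr x = x :=
    (h3 _).1 ((map_mob Fr (fun c => map_pow_card c) z x).symm.trans (by rw [(h3 x).2 rfl]))
  obtain ⟨γ, hγ⟩ : ∃ γ : SL(2, F), γ • (∞ : OnePoint k) = x := by
    cases x with
    | infty => exact ⟨1, one_smul _ _⟩
    | coe x =>
      obtain ⟨c, rfl⟩ := exists_of_pow_card (F := F) (coe_eq_coe.1 h5)
      refine ⟨⟨!![c, -1; 1, 0], by simp [Matrix.det_fin_two]⟩, ?_⟩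
      rw [mob_infty_eq (by simp)]
      simp
  refine ⟨γ⁻¹, fun g ⟨c, hc, hc'⟩ => ?_⟩
  have h6 : ∀ u : OnePoint k, (g * z * g⁻¹) • u = u ↔ u = g • x := by
    intro u
    rw [mul_smul, mul_smul, ← eq_inv_smul_iff, h3, inv_smul_eq_iff]
  have h7 : z • g • x = g • x := by
    rw [← h6, ← hc.smul ((g * z * g⁻¹) • z • g • x), ← mul_smul c, ← hc', mul_smul, inv_smul_smul,
      mul_smul, (h6 _).2 rfl]
  rw [mem_bor, ← mob_infty (k := k), inv_inv, mul_smul, mul_smul, hγ, (h3 _).1 h7, inv_smul_eq_iff,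
    hγ]

lemma reduce (p : ℕ) [Fact p.Prime] [CharP F p] {G : Type*} [Group G] (π : SL(2, F) →* G)
    (hπ : Function.Surjective π) (hker : π.ker ≤ Subgroup.center _) {H P : Subgroup G}
    (hPH : P ≤ H) (hn : (P.subgroupOf H).Normal) (hP : IsPGroup p P) (hne : P ≠ ⊥) :
    ∃ γ : SL(2, F), (H.comap π).map (MulAut.conj γ).toMonoidHom ≤ bor F ∧
      Nat.card P ∣ Nat.card (upP ((H.comap π).map (MulAut.conj γ).toMonoidHom)) := by
  have hp : p.Prime := Fact.out
  have : Finite G := Finite.of_surjective π hπ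
  have : Nontrivial P := (Subgroup.nontrivial_iff_ne_bot P).2 hne
  have := hP.center_nontrivial
  obtain ⟨⟨⟨z, hzP⟩, hz⟩, hz1⟩ := exists_ne (1 : Subgroup.center P)
  obtain ⟨z, rfl⟩ := hπ z
  have hz2 : π z ≠ 1 := fun h => hz1 (Subtype.ext (Subtype.ext h))
  obtain ⟨j, hj⟩ := hP ⟨π z, hzP⟩
  have hj' : π z ^ p ^ j = 1 := congrArg Subtype.val hj
  have h1 : ¬ Cen z := by
    intro hc
    by_cases h2 : p = 2
    · subst h2
      have h3 : z 0 0 = 1 := by
        have h4 : (2 : F) = 0 := by exact_mod_cast CharP.cast_eq_zero F 2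
        have : (z 0 0 - 1) ^ 2 = 0 := by linear_combination hc.sq + (1 - z 0 0) * h4
        exact sub_eq_zero.1 (pow_eq_zero_iff two_ne_zero |>.1 this)
      exact hz2 (by rw [sl_ext (h := 1) h3 hc.1 hc.2.1 (hc.2.2 ▸ h3), map_one])
    · have h3 : z ^ 2 = 1 := by
        rw [sq]
        refine sl_ext ?_ ?_ ?_ ?_ <;> simp only [mul_ap, hc.1, hc.2.1, ← hc.2.2] <;>
          simp [← sq, hc.sq]
      have h4 : π z ^ 2 = 1 := by rw [← map_pow, h3, map_one]
      have h5 : Nat.Coprime 2 (p ^ j) :=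
        Nat.Coprime.pow_right _ ((Nat.coprime_primes Nat.prime_two hp).2 (Ne.symm h2))
      exact hz2 (by simpa [h5] using (pow_gcd_eq_one (a := π z)).2 ⟨h4, hj'⟩)
  obtain ⟨γ, hγ⟩ := exists_conj_infty h1 (par_of_pow p (j := j)
    (cen_of_mem_center (hker (by rw [MonoidHom.mem_ker, map_pow, hj']))))
  have hb : (H.comap π).map (MulAut.conj γ).toMonoidHom ≤ bor F := by
    rintro _ ⟨g, hg, rfl⟩
    refine hγ g ⟨z * (g * z * g⁻¹) * z⁻¹ * (g * z * g⁻¹)⁻¹, cen_of_mem_center (hker ?_), by group⟩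
    have h2 : π (g * z * g⁻¹) ∈ P := by
      have := hn.conj_mem ⟨π z, hPH hzP⟩ hzP ⟨π g, hg⟩
      simpa [Subgroup.mem_subgroupOf] using this
    have h3 := congrArg Subtype.val (Subgroup.mem_center_iff.1 hz ⟨_, h2⟩)
    simp only [Subgroup.coe_mul] at h3
    rw [MonoidHom.mem_ker, map_mul, map_mul, map_mul, ← h3, map_inv, map_inv]
    group
  refine ⟨γ, hb, ?_⟩
  have h2 : Nat.card P ∣ Nat.card ((H.comap π).map (MulAut.conj γ).toMonoidHom) := by
    rw [Subgroup.card_map_of_injective (MulAut.conj γ).injective]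
    refine (Subgroup.card_dvd_of_le hPH).trans ?_
    conv_lhs => rw [← Subgroup.map_comap_eq_self_of_surjective hπ H]
    exact Subgroup.card_map_dvd _ _
  rw [card_eq_upP_mul hb] at h2
  refine Nat.Coprime.dvd_of_dvd_mul_right ?_ h2
  obtain ⟨a, ha⟩ := hP.exists_card_eq
  rw [ha]
  refine Nat.Coprime.pow_left _ (Nat.Coprime.coprime_dvd_right
    (Subgroup.card_subgroup_dvd_card _) ?_)
  classical
  obtain ⟨r, -, hr⟩ := FiniteField.card F p
  rw [Nat.card_eq_fintype_card, Fintype.card_units, hr, hp.coprime_iff_not_dvd]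
  intro h
  have h3 := (Nat.dvd_sub (dvd_pow_self p r.ne_zero) h)
  rw [Nat.sub_sub_self (Nat.one_le_pow _ _ hp.pos)] at h3
  exact hp.one_lt.ne' (Nat.dvd_one.1 h3)

end Pool.Agent.Lib.MP_ba4752_ag
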