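import Pool.Agent.Lib.MP_ba4752_ag.Core
import Pool.Agent.Lib.MP_ba4752_ag.Quot
import Pool.Agent.Lib.MP_ba4752_ag.Red

/-! Assembly. -/

open Polynomial MulAction
open scoped MatrixGroups

namespace Pool.Agent.Lib.MP_ba4752_ag

open Pool.Agent.Lib.MP_e06174_ag Place

universe u

theorem main (p : ℕ) [Fact p.Prime] (k : Type*) [Field k] [IsAlgClosed k] [CharP k p]
    (K : Type u) [Field K] [Algebra k K] [Algebra.EssFiniteType k K] (hK : Algebra.trdeg k K = 1)
    (ξ : ValuationSubring K) (hξ : ξ ≠ ⊤) (hk : ∀ c : k, algebraMap k K c ∈ ξ)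
    (F : Type*) [Field F] [Finite F] [CharP F p] (G : Type*) [Group G] (π : SL(2, F) →* G)
    (hπ : Function.Surjective π) (hker : π.ker ≤ Subgroup.center _) (H P : Subgroup G)
    (hPH : P ≤ H) (hn : (P.subgroupOf H).Normal) (hP : IsPGroup p P) (h3 : 3 ≤ Nat.card P)
    (h9 : Nat.card F = 9 → Nat.card P ≠ 3) :
    ∃ (L : Type u) (_ : Field L) (_ : Algebra K L) (_ : FiniteDimensional K L) (_ : IsGalois K L)
      (e : (L ≃ₐ[K] L) ≃* G),
      (∀ η : ValuationSubring L, η ≠ ⊤ → (∀ c : k, algebraMap K L (algebraMap k K c) ∈ η) →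
        η.comap (algebraMap K L) ≠ ξ → η.decompositionSubgroup K = ⊥) ∧
      ∃ η : ValuationSubring L, η.comap (algebraMap K L) = ξ ∧
        (η.decompositionSubgroup K).map e.toMonoidHom = H := by
  classical
  have := Fintype.ofFinite F
  let _ := ZMod.algebra F p
  let _ := ZMod.algebra k p
  let _ : Algebra F k := (IsAlgClosed.lift : F →ₐ[ZMod p] k).toRingHom.toAlgebra
  let _ : Algebra F K := ((algebraMap k K).comp (algebraMap F k)).toAlgebra
  have : IsScalarTower F k K := .of_algebraMap_eq fun _ => rfl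
  obtain ⟨x, hx⟩ := exists_sepCoord hK
  obtain ⟨ξ, rfl⟩ := hx.exists_place ξ hξ hk
  obtain ⟨γ, hb, hd⟩ := reduce p π hπ hker hPH hn hP (by rintro rfl; simp at h3)
  set I := (H.comap π).map (MulAut.conj γ).toMonoidHom with hI
  have h4 : Nat.card P ≤ Nat.card (upP I) := Nat.le_of_dvd Nat.card_pos hd
  obtain ⟨n₀, r, hN⟩ := exists_num p I (by omega)
  obtain ⟨t, j, hj, hj0, hjc, hreg⟩ := hx.exists_single_pole ξ
    (Nat.mul_pos (by omega : 0 < Nat.card (upP I)) hN.m_pos)
  let a := aeval t (ap (n₀ * Nat.card (img (upP I))) (Nat.card (img (upP I))) (sp (img (upP I))) r)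
  let L := (fp F a).SplittingField
  have : IsGalois K L := IsGalois.of_separable_splitting_field (fp_sep (F := F) a)
  have : IsScalarTower F k L := .of_algebraMap_eq fun c => by
    rw [IsScalarTower.algebraMap_apply F K L, IsScalarTower.algebraMap_apply k K L]; rfl
  obtain ⟨ρ, h5, w, e, hw, h6⟩ := core_aux (L := L) p hx.toIsCoord hx.const hb (by omega)
    (fun h => by have := h9 (by rwa [Nat.card_eq_fintype_card]); omega) hN hj hj0 hjc hreg rfl
  let φ := π.comp ((MulAut.conj γ⁻¹).toMonoidHom.comp ρ.toMonoidHom)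
  obtain ⟨e', h7⟩ := quot_result φ (hπ.comp ((MulAut.conj γ⁻¹).surjective.comp ρ.surjective))
    hx ξ H h5 ⟨w, e, hw, by
      rw [← Subgroup.map_map, ← Subgroup.map_map, h6, hI, Subgroup.map_map _ _ (MulAut.conj γ).toMonoidHom]
      have : (MulAut.conj γ⁻¹).toMonoidHom.comp (MulAut.conj γ).toMonoidHom = MonoidHom.id _ := by
        ext1 g; simp [mul_assoc]
      rw [this, Subgroup.map_id, Subgroup.map_comap_eq_self_of_surjective hπ]⟩
  exact ⟨_, inferInstance, inferInstance, inferInstance, inferInstance, e', h7⟩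

end Pool.Agent.Lib.MP_ba4752_ag
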