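import Mathlib

/-! The action of `SL(2, F)`, `F` finite, on the projective line over an algebraic closure. -/

open scoped MatrixGroups
open OnePoint

namespace Pool.Agent.Lib.MP_ba4752_ag

variable {F : Type*} [Field F]

/-- Upper unitriangular matrices. -/
def uu (b : F) : SL(2, F) := ⟨!![1, b; 0, 1], by simp [Matrix.det_fin_two]⟩

/-- Lower unitriangular matrices. -/
def ll (b : F) : SL(2, F) := ⟨!![1, 0; b, 1], by simp [Matrix.det_fin_two]⟩

@[simp] lemma uu00 (b : F) : uu b 0 0 = 1 := rfl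
@[simp] lemma uu01 (b : F) : uu b 0 1 = b := rfl
@[simp] lemma uu10 (b : F) : uu b 1 0 = 0 := rfl
@[simp] lemma uu11 (b : F) : uu b 1 1 = 1 := rfl
@[simp] lemma ll00 (b : F) : ll b 0 0 = 1 := rfl
@[simp] lemma ll01 (b : F) : ll b 0 1 = 0 := rfl
@[simp] lemma ll10 (b : F) : ll b 1 0 = b := rfl
@[simp] lemma ll11 (b : F) : ll b 1 1 = 1 := rfl

lemma sl_ext {g h : SL(2, F)} (h00 : g 0 0 = h 0 0) (h01 : g 0 1 = h 0 1) (h10 : g 1 0 = h 1 0)
    (h11 : g 1 1 = h 1 1) : g = h := by
  ext i j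
  fin_cases i <;> fin_cases j <;> assumption

lemma sl_det (g : SL(2, F)) : g 0 0 * g 1 1 - g 0 1 * g 1 0 = 1 := by
  have := g.det_coe
  rwa [Matrix.det_fin_two] at this

lemma mul_ap (g h : SL(2, F)) (i j : Fin 2) : (g * h) i j = g i 0 * h 0 j + g i 1 * h 1 j := by
  simp [Matrix.mul_apply, Fin.sum_univ_two]

lemma inv00 (g : SL(2, F)) : g⁻¹ 0 0 = g 1 1 := by
  simp [Matrix.SpecialLinearGroup.SL2_inv_expl]
lemma inv01 (g : SL(2, F)) : g⁻¹ 0 1 = - g 0 1 := by
  simp [Matrix.SpecialLinearGroup.SL2_inv_expl]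
lemma inv10 (g : SL(2, F)) : g⁻¹ 1 0 = - g 1 0 := by
  simp [Matrix.SpecialLinearGroup.SL2_inv_expl]
lemma inv11 (g : SL(2, F)) : g⁻¹ 1 1 = g 0 0 := by
  simp [Matrix.SpecialLinearGroup.SL2_inv_expl]

@[simp] lemma one00 : (1 : SL(2, F)) 0 0 = 1 := rfl
@[simp] lemma one01 : (1 : SL(2, F)) 0 1 = 0 := rfl
@[simp] lemma one10 : (1 : SL(2, F)) 1 0 = 0 := rfl
@[simp] lemma one11 : (1 : SL(2, F)) 1 1 = 1 := rfl

lemma uu_add (a b : F) : uu (a + b) = uu a * uu b :=
  sl_ext (by simp [mul_ap]) (by simp [mul_ap, add_comm]) (by simp [mul_ap]) (by simp [mul_ap])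

lemma uu_zero : uu (0 : F) = 1 := sl_ext rfl rfl rfl rfl

lemma uu_neg (a : F) : uu (-a) = (uu a)⁻¹ :=
  sl_ext (by simp [inv00]) (by simp [inv01]) (by simp [inv10]) (by simp [inv11])

/-- Scalar matrices. -/
def Cen (g : SL(2, F)) : Prop := g 0 1 = 0 ∧ g 1 0 = 0 ∧ g 0 0 = g 1 1

/-- Matrices with a double eigenvalue. -/
def Par (g : SL(2, F)) : Prop := (g 0 0 + g 1 1) ^ 2 = 4

lemma Cen.conj {g : SL(2, F)} (hg : Cen g) (h : SL(2, F)) : h * g * h⁻¹ = g := by
  obtain ⟨h1, h2, h3⟩ := hg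
  have hd := sl_det h
  refine sl_ext ?_ ?_ ?_ ?_ <;>
    simp only [mul_ap, inv00, inv01, inv10, inv11, h1, h2, ← h3]
  · linear_combination g 0 0 * hd
  · ring
  · ring
  · linear_combination g 0 0 * hd

lemma cen_conj_iff {g : SL(2, F)} (h : SL(2, F)) : Cen (h * g * h⁻¹) ↔ Cen g := by
  constructor
  · intro hg
    have := hg.conj h⁻¹
    rw [show h⁻¹ * (h * g * h⁻¹) * h⁻¹⁻¹ = g by group] at this
    rwa [this]
  · intro hg
    rwa [hg.conj]

lemma tr_conj (g h : SL(2, F)) :
    (h * g * h⁻¹) 0 0 + (h * g * h⁻¹) 1 1 = g 0 0 + g 1 1 := by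
  have hd := sl_det h
  simp only [mul_ap, inv00, inv01, inv10, inv11]
  linear_combination (g 0 0 + g 1 1) * hd

lemma par_conj_iff {g : SL(2, F)} (h : SL(2, F)) : Par (h * g * h⁻¹) ↔ Par g := by
  rw [Par, tr_conj, Par]

lemma cen_of_mem_center {g : SL(2, F)} (hg : g ∈ Subgroup.center SL(2, F)) : Cen g := by
  rw [Subgroup.mem_center_iff] at hg
  have h1 := congrArg (fun x : SL(2, F) => x 0 0) (hg (uu 1))
  have h2 := congrArg (fun x : SL(2, F) => x 0 1) (hg (uu 1))
  have h3 := congrArg (fun x : SL(2, F) => x 0 0) (hg (ll 1))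
  simp only [mul_ap, uu00, uu01, uu10, uu11, ll00, ll01, ll10] at h1 h2 h3
  exact ⟨by linear_combination -h3, by linear_combination h1, by linear_combination -h2⟩

/-- The scalar matrices form a subgroup. -/
def cenS (F : Type*) [Field F] : Subgroup SL(2, F) where
  carrier := {g | Cen g}
  one_mem' := ⟨rfl, rfl, rfl⟩
  mul_mem' := by
    rintro a b ⟨h1, h2, h3⟩ ⟨h4, h5, h6⟩
    refine ⟨?_, ?_, ?_⟩ <;> simp [mul_ap, h1, h2, h3, h4, h5, h6]
  inv_mem' := by
    rintro a ⟨h1, h2, h3⟩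
    refine ⟨?_, ?_, ?_⟩ <;> simp [inv00, inv01, inv10, inv11, h1, h2, h3]

/-- The upper triangular matrices. -/
def bor (F : Type*) [Field F] : Subgroup SL(2, F) where
  carrier := {g | g 1 0 = 0}
  one_mem' := rfl
  mul_mem' := by
    intro a b h1 h2
    simp only [Set.mem_ofPred_eq] at *
    simp [mul_ap, h1, h2]
  inv_mem' := by
    intro a h1
    simp only [Set.mem_ofPred_eq] at *
    simp [inv10, h1]

lemma mem_bor {g : SL(2, F)} : g ∈ bor F ↔ g 1 0 = 0 := Iff.rfl

lemma eq_top_of_uu_ll (H : Subgroup SL(2, F)) (hu : ∀ b, uu b ∈ H) (hl : ∀ b, ll b ∈ H) :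
    H = ⊤ := by
  have key : ∀ g : SL(2, F), g 1 0 ≠ 0 → g ∈ H := by
    intro g hc
    have hd := sl_det g
    have : g = uu ((g 0 0 - 1) / g 1 0) * ll (g 1 0) * uu ((g 1 1 - 1) / g 1 0) := by
      refine sl_ext ?_ ?_ ?_ ?_ <;> simp only [mul_ap, uu00, uu01, uu10, uu11, ll00, ll01, ll10,
        ll11] <;> field_simp
      · ring
      · linear_combination -hd
      · ring
      · ring
    rw [this]
    exact mul_mem (mul_mem (hu _) (hl _)) (hu _)
  rw [eq_top_iff]
  intro g _
  by_cases hc : g 1 0 = 0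
  · have hd := sl_det g
    have h1 : (ll 1 * g : SL(2, F)) 1 0 ≠ 0 := by
      simp only [mul_ap, ll10, ll11, hc]
      intro h
      rw [hc] at hd
      have : g 0 0 = 0 := by linear_combination h
      rw [this] at hd
      simp at hd
    have := mul_mem (inv_mem (hl 1)) (key _ h1)
    simpa using this
  · exact key g hc

lemma eq_top_of_uu (H : Subgroup SL(2, F)) (hu : ∀ b, uu b ∈ H) {h : SL(2, F)} (hh : h ∈ H)
    (h0 : h 0 0 = 0) : H = ⊤ := by
  refine eq_top_of_uu_ll H hu fun b => ?_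
  have hd := sl_det h
  have hc : h 1 0 ≠ 0 := by
    intro hc
    rw [h0, hc] at hd
    simp at hd
  obtain ⟨s, hs⟩ : ∃ s, s * h 1 0 ^ 2 = -b := ⟨-b / h 1 0 ^ 2, by field_simp⟩
  rw [h0] at hd
  have : ll b = h * uu s * h⁻¹ := by
    refine sl_ext ?_ ?_ ?_ ?_ <;> simp only [mul_ap, uu00, uu01, uu10, uu11, ll00, ll01, ll10,
      ll11, inv00, inv01, inv10, inv11, h0]
    · linear_combination -hd
    · ring
    · linear_combination hs
    · linear_combination -hd
  rw [this]
  exact mul_mem (mul_mem hh (hu _)) (inv_mem hh)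

section act

variable (k : Type*) [Field k] [Algebra F k] [DecidableEq k]

/-- Extension of scalars. -/
noncomputable def toK : SL(2, F) →* GL (Fin 2) k :=
  Matrix.SpecialLinearGroup.toGL.comp (Matrix.SpecialLinearGroup.map (algebraMap F k))

omit [DecidableEq k] in
@[simp] lemma toK_apply (g : SL(2, F)) (i j : Fin 2) : toK k g i j = algebraMap F k (g i j) := rfl

noncomputable instance mobAct : MulAction SL(2, F) (OnePoint k) :=
  MulAction.compHom (OnePoint k) (toK (F := F) k)

variable {k}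

lemma mob_def (g : SL(2, F)) (x : OnePoint k) : g • x = toK k g • x := rfl

lemma mob_infty {g : SL(2, F)} : g • (∞ : OnePoint k) = ∞ ↔ g 1 0 = 0 := by
  rw [mob_def, smul_infty_eq_self_iff]; simp

lemma mob_fix {g : SL(2, F)} {z : k} : g • (z : OnePoint k) = z ↔
    algebraMap F k (g 1 0) * z ^ 2 + (algebraMap F k (g 1 1) - algebraMap F k (g 0 0)) * z -
      algebraMap F k (g 0 1) = 0 := by
  rw [mob_def, ← Matrix.GeneralLinearGroup.fixpointPolynomial_aeval_eq_zero_iff]
  simp [Matrix.GeneralLinearGroup.fixpointPolynomial]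

lemma mob_infty_eq {g : SL(2, F)} (hc : g 1 0 ≠ 0) :
    g • (∞ : OnePoint k) = (algebraMap F k (g 0 0 / g 1 0) : k) := by
  rw [mob_def, smul_infty_eq_ite]
  simp [hc]

lemma Cen.smul {g : SL(2, F)} (hg : Cen g) (x : OnePoint k) : g • x = x := by
  cases x with
  | infty => exact mob_infty.2 hg.2.1
  | coe z => rw [mob_fix, hg.1, hg.2.1, hg.2.2]; simp

lemma map_mob (f : k →+* k) (hf : ∀ c : F, f (algebraMap F k c) = algebraMap F k c)
    (g : SL(2, F)) (x : OnePoint k) : OnePoint.map f (g • x) = g • OnePoint.map f x := by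
  rw [mob_def, mob_def, OnePoint.map_smul]
  congr 1
  ext i j
  simp [hf]

lemma fix_card [IsAlgClosed k] {g : SL(2, F)} (hg : ¬ Cen g) :
    ∃ x y : OnePoint k, (∀ z, g • z = z ↔ z = x ∨ z = y) ∧ (Par g ↔ x = y) := by
  have hd := sl_det g
  have hinj := (algebraMap F k).injective
  by_cases hc : g 1 0 = 0
  · by_cases ha : g 0 0 = g 1 1
    · have hb : g 0 1 ≠ 0 := fun hb => hg ⟨hb, hc, ha⟩
      refine ⟨∞, ∞, fun z => ?_, ?_⟩
      · cases z with
        | infty => simp [mob_infty, hc]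
        | coe z => rw [mob_fix, hc, ha]; simp [hb]
      · rw [Par]
        rw [hc, ← ha] at hd
        simp only [iff_true, ← ha]
        linear_combination 4 * hd
    · have ha' : algebraMap F k (g 1 1) - algebraMap F k (g 0 0) ≠ 0 := by
        rw [sub_ne_zero]; exact fun h => ha (hinj h).symm
      refine ⟨∞, (algebraMap F k (g 0 1) / (algebraMap F k (g 1 1) - algebraMap F k (g 0 0)) : k),
        fun z => ?_, ?_⟩
      · cases z with
        | infty => simp [mob_infty, hc]
        | coe z =>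
          rw [mob_fix, hc]
          simp only [map_zero, zero_mul, zero_add, coe_ne_infty, false_or, coe_eq_coe]
          rw [eq_div_iff ha', sub_eq_zero, mul_comm]
      · simp only [infty_ne_coe, iff_false, Par]
        intro h
        apply ha
        rw [hc] at hd
        have : (g 0 0 - g 1 1) ^ 2 = 0 := by linear_combination h - 4 * hd
        exact sub_eq_zero.1 (pow_eq_zero_iff two_ne_zero |>.1 this)
  · have hc' : algebraMap F k (g 1 0) ≠ 0 := by simpa using hc
    set c := algebraMap F k (g 1 0) with hcd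
    set e := algebraMap F k (g 1 1) - algebraMap F k (g 0 0) with hed
    set b := algebraMap F k (g 0 1) with hbd
    obtain ⟨x, hx⟩ : ∃ x : k, c * x ^ 2 + e * x - b = 0 := by
      obtain ⟨x, hx⟩ := IsAlgClosed.exists_root
        (Polynomial.C c * Polynomial.X ^ 2 + Polynomial.C e * Polynomial.X + Polynomial.C (-b))
        (by rw [Polynomial.degree_quadratic hc']; decide)
      refine ⟨x, ?_⟩
      simpa [sub_eq_add_neg] using hx
    have hfac : ∀ z : k, c * z ^ 2 + e * z - b = c * ((z - x) * (z - (-e / c - x))) := by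
      intro z
      field_simp
      linear_combination hx
    refine ⟨x, (-e / c - x : k), fun z => ?_, ?_⟩
    · cases z with
      | infty => simp [mob_infty, hc]
      | coe z =>
        rw [mob_fix, hfac]
        simp [hc', sub_eq_zero]
    · rw [coe_eq_coe, Par, ← hinj.eq_iff]
      have hd' := congrArg (algebraMap F k) hd
      simp only [map_sub, map_mul, map_one, map_pow, map_add, map_ofNat] at hd' ⊢
      have h1 : (algebraMap F k (g 0 0) + algebraMap F k (g 1 1)) ^ 2 - 4 =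
          (c * (x - (-e / c - x))) ^ 2 := by
        field_simp
        linear_combination 4 * hd' - 4 * c * hx
      rw [← sub_eq_zero, h1]
      simp [hc', sub_eq_zero]

end act

end Pool.Agent.Lib.MP_ba4752_ag
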