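import Pool.Agent.Lib.MP_ba4752_ag.Roots
import Pool.Agent.Lib.MP_e06174_ag.Curve

/-! Orders of the roots of the companion polynomial. -/

set_option linter.unusedSectionVars false

open Polynomial

namespace Pool.Agent.Lib.MP_ba4752_ag

open Pool.Agent.Lib.MP_e06174_ag Place

variable {k F L : Type*} [Field k] [Field F] [Fintype F] [Field L] [Algebra F L] [Algebra k L]
  [Algebra F k] [IsScalarTower F k L] {w : Place k L} {A x y : L}

lemma ge_constF (c : F) : w.Ge 0 (algebraMap F L c) := by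
  rw [IsScalarTower.algebraMap_apply F k L]; exact ge_const _

lemma ord_constF (c : F) : w.ord (algebraMap F L c) = 0 := by
  rw [IsScalarTower.algebraMap_apply F k L]; exact ord_const _ _

lemma constF_eq_zero {c : F} (h : w.Ge 1 (algebraMap F L c)) : c = 0 := by
  rw [IsScalarTower.algebraMap_apply F k L] at h
  simpa using eq_zero_of_ge_one_const h

lemma ge_pow_of_le {n : ℤ} {j : ℕ} (h : n ≤ j * w.ord x) : w.Ge n (x ^ j) :=
  ge_of_le (by rw [ord_pow]; exact h)

lemma IsRt.ord_eq_zero (hA : w.Ge 0 A) (hx : IsRt F A x) (h0 : x ≠ 0) : w.ord x = 0 := by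
  have hq : (2 : ℤ) ≤ Fintype.card F := by exact_mod_cast Fintype.one_lt_card (α := F)
  rcases lt_trichotomy (w.ord x) 0 with h | h | h
  · have h1 : w.Ge (Fintype.card F * w.ord x) ((x ^ Fintype.card F) ^ Fintype.card F) := by
      rw [hx]
      exact (hA.mul' (ge_pow_of_le le_rfl) (by simp)).sub (ge_of_le (by nlinarith))
    have := h1.le (by simp [h0])
    simp only [ord_pow] at this
    nlinarith [mul_pos (by omega : (0 : ℤ) < Fintype.card F) (neg_pos.2 h)]
  · exact h
  · have h2 : x = A * x ^ Fintype.card F - (x ^ Fintype.card F) ^ Fintype.card F := by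
      rw [hx]; ring
    have h1 : w.Ge (Fintype.card F * w.ord x) x := by
      conv_rhs => rw [h2]
      refine (hA.mul' (ge_pow_of_le le_rfl) (by simp)).sub (ge_pow_of_le ?_)
      rw [ord_pow]
      nlinarith [mul_pos (by omega : (0 : ℤ) < Fintype.card F) h]
    have := h1.le h0
    nlinarith

lemma IsRt.small (hA : w.ord A < 0) (hx : IsRt F A x) (h : 0 < w.ord x) :
    (Fintype.card F - 1) * w.ord x = - w.ord A := by
  have hq : (2 : ℤ) ≤ Fintype.card F := by exact_mod_cast Fintype.one_lt_card (α := F)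
  have h0 : x ≠ 0 := by rintro rfl; simp at h
  have hA0 : A ≠ 0 := by rintro rfl; simp at hA
  have h2 : A * x ^ Fintype.card F = x + (x ^ Fintype.card F) ^ Fintype.card F := by
    rw [hx]; ring
  have h3 := (ord_add_of_ge (p := w) h0 (y := (x ^ Fintype.card F) ^ Fintype.card F)
    (ge_pow_of_le (by
      rw [ord_pow]
      nlinarith [mul_pos (by omega : (0 : ℤ) < Fintype.card F) h]))).2
  rw [← h2, w.ord_mul hA0 (pow_ne_zero _ h0), ord_pow] at h3
  linarith

lemma IsRt.large (hA : w.ord A < 0) (hx : IsRt F A x) (h0 : x ≠ 0) (h : w.ord x ≤ 0) :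
    Fintype.card F * ((Fintype.card F - 1) * w.ord x) = w.ord A := by
  have hq : (2 : ℤ) ≤ Fintype.card F := by exact_mod_cast Fintype.one_lt_card (α := F)
  have hA0 : A ≠ 0 := by rintro rfl; simp at hA
  have h1 : w.ord (A * x ^ Fintype.card F) = w.ord A + Fintype.card F * w.ord x := by
    rw [w.ord_mul hA0 (pow_ne_zero _ h0), ord_pow]
  have h3 := (ord_add_of_ge (p := w) (mul_ne_zero hA0 (pow_ne_zero (Fintype.card F) h0))
    (y := -x) (ge_of_le (by rw [h1, ord_neg]; nlinarith))).2
  rw [← sub_eq_add_neg, ← hx, h1, ord_pow, ord_pow] at h3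
  linarith

lemma wr_div (h : Wr F x y = 1) :
    (y / x) ^ Fintype.card F - y / x = x⁻¹ ^ (Fintype.card F + 1) := by
  have h0 := (ne_zero_of_wr h).1
  rw [Wr] at h
  simp only [div_pow, inv_pow, pow_succ]
  field_simp
  linear_combination h

lemma exists_small (hA : w.ord A < 0) (hx : IsRt F A x) (hy : IsRt F A y) (h : Wr F x y = 1) :
    ∃ x y, IsRt F A x ∧ IsRt F A y ∧ Wr F x y = 1 ∧ 0 < w.ord x := by
  by_cases h1 : 0 < w.ord x
  · exact ⟨x, y, hx, hy, h, h1⟩
  have hq : (2 : ℤ) ≤ Fintype.card F := by exact_mod_cast Fintype.one_lt_card (α := F)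
  have h0 := (ne_zero_of_wr h).1
  have h2 := hx.large hA h0 (by omega)
  have h3 : w.ord x < 0 := by
    by_contra h3
    have : w.ord x = 0 := by omega
    rw [this] at h2
    omega
  have h4 := wr_div h
  rw [pow_card_sub (F := F)] at h4
  have h5 : ∀ c : F, y / x - algebraMap F L c ≠ 0 := fun c =>
    Finset.prod_ne_zero_iff.1 (h4 ▸ pow_ne_zero _ (inv_ne_zero h0)) c (Finset.mem_univ _)
  obtain ⟨c, hc⟩ : ∃ c : F, 0 < w.ord (y / x - algebraMap F L c) := by
    by_contra hne
    push Not at hne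
    have h6 := congrArg w.ord h4
    rw [w.ord_prod _ _ fun c _ => h5 c, ord_pow, ord_inv] at h6
    have := Finset.sum_nonpos (s := Finset.univ) fun c _ => hne c
    push_cast at h6
    nlinarith
  have h6 : y - algebraMap F L c * x = (y / x - algebraMap F L c) * x := by field_simp
  have h7 := hy.sub (hx.smul c)
  refine ⟨y - algebraMap F L c * x, algebraMap F L (-1) * x, h7, hx.smul _, ?_, ?_⟩
  · have := wr_comb (x := x) (y := y) (-c) 1 (-1) 0
    simpa [h, add_comm, sub_eq_add_neg] using this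
  · by_contra h8
    have h9 := h7.large hA (h6 ▸ mul_ne_zero (h5 c) h0) (by omega)
    rw [h6, w.ord_mul (h5 c) h0, ← h2] at h9
    have h10 := mul_left_cancel₀ (by omega) (mul_left_cancel₀ (by omega) h9)
    omega

lemma eq_zero_of_small (h : Wr F x y = 1) (h1 : 0 < w.ord x) {c d : F}
    (h2 : 0 < w.ord (algebraMap F L c * x + algebraMap F L d * y)) : d = 0 := by
  have h3 := wr_comb (x := x) (y := y) 1 0 c d
  simp only [map_one, one_mul, map_zero, zero_mul, add_zero, mul_zero, sub_zero, h, mul_one] at h3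
  refine constF_eq_zero (w := w) (L := L) ?_
  rw [← h3, Wr]
  exact ((ge_of_le h1).mul' (ge_pow_of_le (n := 0) (by positivity)) (by simp)).sub
    ((ge_pow_of_le (n := 0) (by positivity)).mul' (ge_of_le h2) (by simp))

lemma ge_zero_of_monic {f : F[X]} (hf : f.Monic) (hd : 0 < f.natDegree) {z : L}
    (h : w.Ge 0 (aeval z f)) : w.Ge 0 z := by
  by_contra hz
  rw [not_ge_iff] at hz
  have h1 := ord_aeval_of_pole hz.2 (P := f.map (algebraMap F k)) (hf.map _).ne_zero
  rw [aeval_map_algebraMap, hf.natDegree_map] at h1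
  have h2 : aeval z f ≠ 0 := by
    intro h0
    rw [h0, ord_zero] at h1
    have : (0 : ℤ) < f.natDegree := by exact_mod_cast hd
    nlinarith [hz.2]
  have := h.le h2
  have : (0 : ℤ) < f.natDegree := by exact_mod_cast hd
  nlinarith [hz.2]

lemma ge_aevalF (f : F[X]) {z : L} (h : w.Ge 0 z) : w.Ge 0 (aeval z f) := by
  rw [← aeval_map_algebraMap k]; exact h.aeval _

lemma ge_pow_sub_one {n : ℤ} (hn : 0 ≤ n) {z : L} (h : w.Ge n (z - 1)) (j : ℕ) :
    w.Ge n (z ^ j - 1) := by
  have h0 : w.Ge 0 z := by simpa using (h.mono hn).add ge_one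
  induction j with
  | zero => simp
  | succ j ih =>
    have := (ih.mul' h0 (l := n) (by simp)).add h
    convert this using 1
    ring

lemma ge_sub_one_of_pow {n : ℤ} {z : L} {j : ℕ} (hj : (j : k) ≠ 0) (h1 : w.Ge 1 (z - 1))
    (h : w.Ge n (z ^ j - 1)) : w.Ge n (z - 1) := by
  have h2 : w.Ge 1 (∑ i ∈ Finset.range j, z ^ i - algebraMap k L j) := by
    have := Ge.sum (s := Finset.range j) fun i _ => ge_pow_sub_one (by omega) h1 i
    simpa using this
  obtain ⟨h3, h4⟩ := ord_eq_zero_of_ge_sub_const hj h2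
  have h5 : z - 1 = (z ^ j - 1) * (∑ i ∈ Finset.range j, z ^ i)⁻¹ := by
    rw [← mul_geom_sum]; field_simp
  rw [h5]
  exact h.mul' (ge_of_le (n := 0) (by simp [h4])) (by simp)

end Pool.Agent.Lib.MP_ba4752_ag
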