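import Pool.Agent.Lib.MP_ba4752_ag.Frob
import Pool.Agent.Lib.MP_ba4752_ag.Mob

/-! The roots of `X ^ (q ^ 2) - a X ^ q + X` and the Galois action on them. -/

set_option linter.unusedSectionVars false

open Polynomial
open scoped MatrixGroups

namespace Pool.Agent.Lib.MP_ba4752_ag

variable (F : Type*) [Field F] [Fintype F] {L : Type*} [Field L] [Algebra F L]

/-- Roots of the companion equation. -/
def IsRt (A β : L) : Prop :=
  (β ^ Fintype.card F) ^ Fintype.card F = A * β ^ Fintype.card F - β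

/-- The Moore determinant. -/
def Wr (x y : L) : L := x * y ^ Fintype.card F - x ^ Fintype.card F * y

variable {F} {A x y : L}

lemma IsRt.add (hx : IsRt F A x) (hy : IsRt F A y) : IsRt F A (x + y) := by
  rw [IsRt, add_pow_card F, add_pow_card F, hx, hy]; ring

lemma IsRt.sub (hx : IsRt F A x) (hy : IsRt F A y) : IsRt F A (x - y) := by
  rw [IsRt, sub_pow_card F, sub_pow_card F, hx, hy]; ring

lemma IsRt.smul (hx : IsRt F A x) (c : F) : IsRt F A (algebraMap F L c * x) := by
  rw [IsRt, mul_pow, map_pow_card, mul_pow, map_pow_card, hx]; ring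

lemma IsRt.wr (hx : IsRt F A x) (hy : IsRt F A y) : ∃ c : F, algebraMap F L c = Wr F x y := by
  refine exists_of_pow_card ?_
  rw [Wr, sub_pow_card F, mul_pow, mul_pow, hx, hy]; ring

omit [Algebra F L] in
lemma cramer (h : Wr F x y = 1) (z : L) : z = Wr F z y * x + Wr F x z * y := by
  simp only [Wr] at *
  linear_combination (-z) * h

lemma wr_comb (a b c d : F) : Wr F (algebraMap F L a * x + algebraMap F L b * y)
    (algebraMap F L c * x + algebraMap F L d * y) =
    algebraMap F L (a * d - c * b) * Wr F x y := by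
  simp only [Wr, add_pow_card F, mul_pow, map_pow_card, map_sub, map_mul]; ring

lemma IsRt.comb (hx : IsRt F A x) (hy : IsRt F A y) (h : Wr F x y = 1) {z : L} (hz : IsRt F A z) :
    ∃ c d : F, z = algebraMap F L c * x + algebraMap F L d * y := by
  obtain ⟨c, hc⟩ := hz.wr hy
  obtain ⟨d, hd⟩ := hx.wr hz
  exact ⟨c, d, by rw [hc, hd]; exact cramer h z⟩

lemma indep (h : Wr F x y = 1) {a b c d : F} (he : algebraMap F L a * x + algebraMap F L b * y =
    algebraMap F L c * x + algebraMap F L d * y) : a = c ∧ b = d := by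
  have h1 := wr_comb (x := x) (y := y) a b 0 1
  have h2 := wr_comb (x := x) (y := y) 1 0 a b
  rw [he, wr_comb, h] at h1 h2
  simp only [mul_one, zero_mul, sub_zero, one_mul, mul_zero, (algebraMap F L).injective.eq_iff]
    at h1 h2
  exact ⟨h1.symm, h2.symm⟩

omit [Algebra F L] in
lemma ne_zero_of_wr (h : Wr F x y = 1) : x ≠ 0 ∧ y ≠ 0 := by
  constructor <;> rintro rfl <;> simp [Wr, Fintype.card_ne_zero] at h

variable {K : Type*} [Field K] [Algebra F K] [Algebra K L] [IsScalarTower F K L] {a : K}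

omit [Algebra F L] [Algebra F K] [IsScalarTower F K L] in
lemma IsRt.map (hx : IsRt F (algebraMap K L a) x) (σ : L ≃ₐ[K] L) :
    IsRt F (algebraMap K L a) (σ x) := by
  have := congrArg σ hx
  simpa [IsRt] using this

omit [Fintype F] in
lemma gal_const (σ : L ≃ₐ[K] L) (c : F) : σ (algebraMap F L c) = algebraMap F L c := by
  rw [IsScalarTower.algebraMap_apply F K L, AlgEquiv.commutes]

lemma exists_rep (hx : IsRt F (algebraMap K L a) x) (hy : IsRt F (algebraMap K L a) y)
    (h : Wr F x y = 1) : ∃ ρ : (L ≃ₐ[K] L) →* SL(2, F), ∀ σ,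
      σ x = algebraMap F L (ρ σ 0 0) * x + algebraMap F L (ρ σ 1 0) * y ∧
      σ y = algebraMap F L (ρ σ 0 1) * x + algebraMap F L (ρ σ 1 1) * y := by
  have h1 : ∀ σ : L ≃ₐ[K] L, ∃ g : SL(2, F),
      σ x = algebraMap F L (g 0 0) * x + algebraMap F L (g 1 0) * y ∧
      σ y = algebraMap F L (g 0 1) * x + algebraMap F L (g 1 1) * y := by
    intro σ
    obtain ⟨a, c, hac⟩ := hx.comb hy h (hx.map σ)
    obtain ⟨b, d, hbd⟩ := hx.comb hy h (hy.map σ)
    refine ⟨⟨!![a, b; c, d], ?_⟩, hac, hbd⟩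
    have h2 : Wr F (σ x) (σ y) = 1 := by
      have := congrArg σ h
      simpa [Wr] using this
    rw [hac, hbd, wr_comb, h, mul_one] at h2
    rw [Matrix.det_fin_two_of]
    exact (algebraMap F L).injective (h2.trans (map_one _).symm)
  choose ρ hρ using h1
  refine ⟨MonoidHom.mk' ρ fun σ τ => ?_, hρ⟩
  have e1 := (hρ (σ * τ)).1
  have e2 := (hρ (σ * τ)).2
  rw [AlgEquiv.mul_apply, (hρ τ).1, map_add, map_mul, map_mul, gal_const, gal_const, (hρ σ).1,
    (hρ σ).2] at e1
  rw [AlgEquiv.mul_apply, (hρ τ).2, map_add, map_mul, map_mul, gal_const, gal_const, (hρ σ).1,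
    (hρ σ).2] at e2
  have f1 := indep h (a := ρ (σ * τ) 0 0) (b := ρ (σ * τ) 1 0) (c := (ρ σ * ρ τ : SL(2, F)) 0 0)
    (d := (ρ σ * ρ τ : SL(2, F)) 1 0) (by simp only [mul_ap, map_add, map_mul]; rw [← e1]; ring)
  have f2 := indep h (a := ρ (σ * τ) 0 1) (b := ρ (σ * τ) 1 1) (c := (ρ σ * ρ τ : SL(2, F)) 0 1)
    (d := (ρ σ * ρ τ : SL(2, F)) 1 1) (by simp only [mul_ap, map_add, map_mul]; rw [← e2]; ring)
  exact sl_ext f1.1 f2.1 f1.2 f2.2

variable (F) in
/-- The companion polynomial. -/
noncomputable def fp (a : K) : K[X] :=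
  X ^ (Fintype.card F * Fintype.card F) - (C a * X ^ Fintype.card F - X)

omit [Algebra F K] in
lemma fp_lt (a : K) : (C a * X ^ Fintype.card F - X : K[X]).degree <
    (X ^ (Fintype.card F * Fintype.card F) : K[X]).degree := by
  have hq := Fintype.one_lt_card (α := F)
  rw [degree_X_pow]
  refine (degree_sub_le _ _).trans_lt (max_lt ((degree_C_mul_X_pow_le _ _).trans_lt ?_) ?_)
  · exact_mod_cast (by nlinarith : Fintype.card F < Fintype.card F * Fintype.card F)
  · rw [degree_X]
    exact_mod_cast (by nlinarith : 1 < Fintype.card F * Fintype.card F)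

omit [Algebra F K] in
lemma fp_monic (a : K) : (fp F a).Monic := (monic_X_pow _).sub_of_left (fp_lt a)

omit [Algebra F K] in
lemma fp_natDegree (a : K) : (fp F a).natDegree = Fintype.card F * Fintype.card F := by
  rw [fp, natDegree_eq_of_degree_eq (degree_sub_eq_left_of_degree_lt (fp_lt a)), natDegree_X_pow]

lemma fp_sep (a : K) : (fp F a).Separable := by
  have h : ((Fintype.card F : ℕ) : K) = 0 := by
    rw [← map_natCast (algebraMap F K), FiniteField.cast_card_eq_zero, map_zero]
  have : derivative (fp F a) = 1 := by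
    simp [fp, derivative_X_pow, h]
  rw [separable_def, this]
  exact isCoprime_one_right

omit [Algebra F L] [Algebra F K] [IsScalarTower F K L] in
lemma mem_rootSet_fp {z : L} : z ∈ (fp F a).rootSet L ↔ IsRt F (algebraMap K L a) z := by
  rw [mem_rootSet_of_ne (fp_monic a).ne_zero, IsRt, ← pow_mul]
  simp [fp, sub_eq_zero]

omit [Algebra F L] [Algebra F K] [IsScalarTower F K L] in
lemma eq_one_of_rt [IsSplittingField K L (fp F a)] (σ : L ≃ₐ[K] L)
    (h : ∀ z, IsRt F (algebraMap K L a) z → σ z = z) : σ = 1 := by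
  have : (σ : L →ₐ[K] L) = AlgHom.id K L :=
    AlgHom.ext_of_adjoin_eq_top (IsSplittingField.adjoin_rootSet L (fp F a))
      fun z hz => h z (mem_rootSet_fp.1 hz)
  ext z
  exact DFunLike.congr_fun this z

lemma exists_wr [IsSplittingField K L (fp F a)] :
    ∃ x y : L, IsRt F (algebraMap K L a) x ∧ IsRt F (algebraMap K L a) y ∧ Wr F x y = 1 := by
  classical
  have hq := Fintype.one_lt_card (α := F)
  have hc := card_rootSet_eq_natDegree (fp_sep (F := F) a) (IsSplittingField.splits L (fp F a))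
  rw [fp_natDegree] at hc
  have key : ∀ x : L, ∃ y, IsRt F (algebraMap K L a) y ∧ ∀ c : F, y ≠ algebraMap F L c * x := by
    intro x
    by_contra hne
    push Not at hne
    choose c hc' using fun y : (fp F a).rootSet L => hne y (mem_rootSet_fp.1 y.2)
    have := Fintype.card_le_of_injective c fun y z h => Subtype.ext (by rw [hc' y, hc' z, h])
    nlinarith
  obtain ⟨x, hx, hx0⟩ := key 0
  obtain ⟨y, hy, hy0⟩ := key x
  have h0 : x ≠ 0 := by simpa using hx0 0
  obtain ⟨c, hc⟩ := hx.wr hy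
  have hc0 : c ≠ 0 := by
    rintro rfl
    obtain ⟨d, hd⟩ := exists_of_pow_card (F := F) (z := y / x) (by
      rw [div_pow, div_eq_div_iff (pow_ne_zero _ h0) h0]
      rw [map_zero, Wr] at hc
      linear_combination -hc)
    exact hy0 d (by rw [hd, div_mul_cancel₀ _ h0])
  refine ⟨x, algebraMap F L c⁻¹ * y, hx, hy.smul _, ?_⟩
  have := wr_comb (x := x) (y := y) (1 : F) 0 0 c⁻¹
  simpa [← hc, hc0] using this

end Pool.Agent.Lib.MP_ba4752_ag
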